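import Pool.Agent.H810R3.Tub.Compare

set_option autoImplicit false

/-!
From the moments of a sum of boxes to the comparison with the centred boxes: all exponents with the
loss `N ^ ε`, large exponents without loss.
-/

open MeasureTheory Set Filter Topology ENNReal NNReal Metric

namespace Run7.h534.Cmp

open Pool.Agent.H810R3.Tub

/-- Large exponents, without loss. -/
theorem compare_large (d : ℕ) {ι : Type} [Fintype ι] [Nonempty ι] {N q Q D : ℝ} (hN : 1 ≤ N)
    (hq1 : 1 ≤ q) (hD1 : 1 ≤ D) (ω : ι → Vec d) (f : ι → Fin d → Space d)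
    (hf : ∀ i, Orthonormal ℝ (Fin.cons (nor (ω i)) (f i) : Fin (d + 1) → Space d)) (a : ι → Space d)
    (hQi : ∫⁻ y, Fb N ω f a y ^ q ≤ ENNReal.ofReal Q)
    (hA2 : Q ≤ D ^ q * ((Fintype.card ι : ℝ) ^ q * ((N / 2) ^ (d + 1) * wv d)))
    (p : ℝ≥0∞) (hp : ENNReal.ofReal q ≤ p) :
    eLpNorm (fun y : Space d => ∑ i, (box N (nor (ω i)) (f i) (a i)).indicator (fun _ => (1 : ℝ)) y) p volume
      ≤ ENNReal.ofReal D *
        eLpNorm (fun y : Space d => ∑ i,
          (box N (nor (ω i)) (f i) 0).indicator (fun _ => (1 : ℝ)) y) p volume := by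
  have hN0 : 0 < N := by linarith
  have hq0 : 0 < q := by linarith
  have hD0 : 0 < D := by linarith
  have hpq : 0 < p := lt_of_lt_of_le (by simpa using hq0) hp
  set w : ℝ := wv d with hw
  have hw0 : 0 < w := wv_pos d
  have hwe : volume (ball (0 : Space d) 1) = ENNReal.ofReal w := by
    rw [hw, wv, ENNReal.ofReal_toReal measure_ball_lt_top.ne]
  set c : ℝ := (Fintype.card ι : ℝ) with hc
  have hc0 : 0 < c := by
    have h1 : (0 : ℝ) < (Fintype.card ι : ℝ) := by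
      have := Fintype.card_pos (α := ι)
      exact_mod_cast this
    exact h1
  have hbv : volume (ball (0 : Space d) (N / 2)) = ENNReal.ofReal ((N / 2) ^ (d + 1) * w) := by
    rw [Measure.addHaar_ball_of_pos _ _ (by positivity), finrank_space, hwe,
      ← ENNReal.ofReal_mul (by positivity)]
  have hball : ∀ y ∈ ball (0 : Space d) (N / 2), Fb N ω f (fun _ => (0 : Space d)) y = ENNReal.ofReal c := by
    intro y hy
    unfold Fb
    rw [Finset.sum_congr rfl (fun i _ => indicator_of_mem (ball_sub_box hN (hf i) hy) _)]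
    simp [hc]
  have hFc : ∀ y, Fb N ω f a y ≤ ENNReal.ofReal c := by
    intro y
    refine (Fb_le N ω f a y).trans (le_of_eq ?_)
    rw [hc, ENNReal.ofReal_natCast]
  have hD1e : (1 : ℝ≥0∞) ≤ ENNReal.ofReal D := by
    rw [← ENNReal.ofReal_one]
    exact ENNReal.ofReal_le_ofReal hD1
  rcases eq_or_ne p ∞ with hpt | hpt
  · rw [hpt, eLpNorm_exponent_top, eLpNorm_exponent_top]
    have h1 : eLpNormEssSup (fun y : Space d => ∑ i, (box N (nor (ω i)) (f i)
        (a i)).indicator (fun _ => (1 : ℝ)) y) volume ≤ ENNReal.ofReal c := by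
      unfold eLpNormEssSup
      refine essSup_le_of_ae_le _ (Filter.Eventually.of_forall fun y => ?_)
      show ‖∑ i, (box N (nor (ω i)) (f i) (a i)).indicator (fun _ => (1 : ℝ)) y‖ₑ ≤ ENNReal.ofReal c
      rw [enorm_sum_box]
      exact hFc y
    have h2 : ENNReal.ofReal c ≤ eLpNormEssSup (fun y : Space d => ∑ i,
        (box N (nor (ω i)) (f i) 0).indicator (fun _ => (1 : ℝ)) y) volume := by
      have h3 := ae_le_eLpNormEssSup (f := fun y : Space d => ∑ i,
        (box N (nor (ω i)) (f i) 0).indicator (fun _ => (1 : ℝ)) y) (μ := volume)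
      have h4 : volume (ball (0 : Space d) (N / 2)) ≠ 0 := (measure_ball_pos _ _ (by positivity)).ne'
      obtain ⟨y, hy1, hy2⟩ : ∃ y ∈ ball (0 : Space d) (N / 2), ‖∑ i,
          (box N (nor (ω i)) (f i) 0).indicator (fun _ => (1 : ℝ)) y‖ₑ ≤ eLpNormEssSup (fun y : Space d => ∑ i,
          (box N (nor (ω i)) (f i) 0).indicator (fun _ => (1 : ℝ)) y) volume := by
        by_contra hcon
        push Not at hcon
        apply h4
        refine measure_mono_null ?_ (ae_iff.1 h3)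
        intro y hy
        exact not_le.2 (hcon y hy)
      have h5 := enorm_sum_box N ω f (fun _ => (0 : Space d)) y
      rw [h5, hball y hy1] at hy2
      exact hy2
    calc _ ≤ 1 * ENNReal.ofReal c := by rw [one_mul]; exact h1
      _ ≤ _ := mul_le_mul' hD1e h2
  · have hp0 : p ≠ 0 := hpq.ne'
    set r : ℝ := p.toReal with hr
    have hrq : q ≤ r := by
      rw [hr, ← ENNReal.toReal_ofReal hq0.le]
      exact ENNReal.toReal_mono hpt hp
    have hr0 : 0 < r := by linarith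
    rw [eLpNorm_eq_lintegral_rpow_enorm_toReal hp0 hpt, eLpNorm_eq_lintegral_rpow_enorm_toReal hp0 hpt, ← hr]
    have e1 : ∫⁻ y : Space d, ‖∑ i, (box N (nor (ω i)) (f i) (a i)).indicator (fun _ => (1 : ℝ)) y‖ₑ ^ r =
        ∫⁻ y, Fb N ω f a y ^ r := by
      refine lintegral_congr fun y => ?_
      rw [enorm_sum_box]
    have e2 : ∫⁻ y : Space d, ‖∑ i, (box N (nor (ω i)) (f i) 0).indicator (fun _ => (1 : ℝ)) y‖ₑ ^ r =
        ∫⁻ y, Fb N ω f (fun _ => 0) y ^ r := by
      refine lintegral_congr fun y => ?_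
      rw [← enorm_sum_box]
    rw [e1, e2]
    have key : ∫⁻ y, Fb N ω f a y ^ r ≤ ENNReal.ofReal (D ^ r) * ∫⁻ y, Fb N ω f (fun _ => 0) y ^ r := by
      have h1 : ∫⁻ y, Fb N ω f a y ^ r ≤ ENNReal.ofReal (c ^ (r - q) * Q) := by
        calc ∫⁻ y, Fb N ω f a y ^ r ≤ ∫⁻ y, ENNReal.ofReal (c ^ (r - q)) * Fb N ω f a y ^ q := by
              refine lintegral_mono fun y => ?_
              simp only
              have e3 : Fb N ω f a y ^ r = Fb N ω f a y ^ (r - q) * Fb N ω f a y ^ q := by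
                rw [← ENNReal.rpow_add_of_nonneg _ _ (by linarith) hq0.le, sub_add_cancel]
              rw [e3, ← ENNReal.ofReal_rpow_of_pos hc0]
              exact mul_le_mul' (ENNReal.rpow_le_rpow (hFc y) (by linarith)) le_rfl
          _ = ENNReal.ofReal (c ^ (r - q)) * ∫⁻ y, Fb N ω f a y ^ q :=
              lintegral_const_mul' _ _ ENNReal.ofReal_ne_top
          _ ≤ ENNReal.ofReal (c ^ (r - q)) * ENNReal.ofReal Q := mul_le_mul' le_rfl hQi
          _ = _ := (ENNReal.ofReal_mul (by positivity)).symm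
      have h2 : ENNReal.ofReal (c ^ r * ((N / 2) ^ (d + 1) * w)) ≤ ∫⁻ y, Fb N ω f (fun _ => 0) y ^ r := by
        calc ENNReal.ofReal (c ^ r * ((N / 2) ^ (d + 1) * w))
            = ENNReal.ofReal (c ^ r) * volume (ball (0 : Space d) (N / 2)) := by
              rw [hbv, ENNReal.ofReal_mul (by positivity)]
          _ = ∫⁻ _ in ball (0 : Space d) (N / 2), ENNReal.ofReal (c ^ r) := by
              rw [setLIntegral_const]
          _ = ∫⁻ y in ball (0 : Space d) (N / 2), Fb N ω f (fun _ => 0) y ^ r := by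
              refine setLIntegral_congr_fun measurableSet_ball fun y hy => ?_
              rw [hball y hy, ENNReal.ofReal_rpow_of_pos hc0]
          _ ≤ _ := setLIntegral_le_lintegral _ _
      have h3 : c ^ (r - q) * Q ≤ D ^ r * (c ^ r * ((N / 2) ^ (d + 1) * w)) := by
        have h4 : D ^ q ≤ D ^ r := Real.rpow_le_rpow_of_exponent_le hD1 hrq
        have h5 : c ^ (r - q) * c ^ q = c ^ r := by
          rw [← Real.rpow_add hc0, sub_add_cancel]
        calc c ^ (r - q) * Q ≤ c ^ (r - q) * (D ^ q * (c ^ q * ((N / 2) ^ (d + 1) * w))) :=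
              mul_le_mul_of_nonneg_left hA2 (by positivity)
          _ = D ^ q * ((c ^ (r - q) * c ^ q) * ((N / 2) ^ (d + 1) * w)) := by ring
          _ = D ^ q * (c ^ r * ((N / 2) ^ (d + 1) * w)) := by rw [h5]
          _ ≤ _ := mul_le_mul_of_nonneg_right h4 (by positivity)
      calc ∫⁻ y, Fb N ω f a y ^ r ≤ ENNReal.ofReal (c ^ (r - q) * Q) := h1
        _ ≤ ENNReal.ofReal (D ^ r * (c ^ r * ((N / 2) ^ (d + 1) * w))) := ENNReal.ofReal_le_ofReal h3
        _ = ENNReal.ofReal (D ^ r) * ENNReal.ofReal (c ^ r * ((N / 2) ^ (d + 1) * w)) :=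
            ENNReal.ofReal_mul (by positivity)
        _ ≤ _ := mul_le_mul' le_rfl h2
    calc (∫⁻ y, Fb N ω f a y ^ r) ^ (1 / r)
        ≤ (ENNReal.ofReal (D ^ r) * ∫⁻ y, Fb N ω f (fun _ => 0) y ^ r) ^ (1 / r) :=
          ENNReal.rpow_le_rpow key (by positivity)
      _ = _ := by
          rw [ENNReal.mul_rpow_of_nonneg _ _ (by positivity),
            ENNReal.ofReal_rpow_of_pos (by positivity), ← Real.rpow_mul hD0.le,
            mul_one_div_cancel hr0.ne', Real.rpow_one]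

/-- The class `P` of systems of boxes satisfies the moment inequality. -/
def Moments (d : ℕ) (P : ∀ (N : ℝ) (ι : Type) [Fintype ι], (ι → Vec d) → (ι → Fin d → Space d) →
    (ι → Space d) → Prop) : Prop :=
  ∀ q : ℝ, ((d : ℝ) + 1) / d < q → ∃ E : ℝ, 0 < E ∧ ∀ (N : ℝ), 1 ≤ N → ∀ (ι : Type) [Fintype ι]
    [Nonempty ι] (ω : ι → Vec d) (f : ι → Fin d → Space d) (a : ι → Space d), P N ι ω f a →
    ∫⁻ y, Fb N ω f a y ^ q
      ≤ ENNReal.ofReal (E * N ^ (d + 2) * (Fintype.card ι : ℝ) ^ (q - 1 / d))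

/-- **All exponents, with the loss `N ^ ε`.** -/
theorem compare_all {d : ℕ} (hd : 1 ≤ d) {P : ∀ (N : ℝ) (ι : Type) [Fintype ι], (ι → Vec d) →
    (ι → Fin d → Space d) → (ι → Space d) → Prop} (hP : Moments d P) {ε κ : ℝ} (hε : 0 < ε)
    (hκ : 0 < κ) :
    ∃ C : ℝ, 0 < C ∧ ∀ (N : ℝ), 1 ≤ N → ∀ (ι : Type) [Fintype ι] (ω : ι → Vec d)
      (f : ι → Fin d → Space d) (a : ι → Space d), P N ι ω f a → κ * N ^ d ≤ (Fintype.card ι : ℝ) →
      (∀ i, Orthonormal ℝ (Fin.cons (nor (ω i)) (f i) : Fin (d + 1) → Space d)) →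
      ∀ p : ℝ≥0∞, 1 ≤ p →
      eLpNorm (fun y : Space d => ∑ i, (box N (nor (ω i)) (f i) (a i)).indicator
          (fun _ => (1 : ℝ)) y) p volume
        ≤ ENNReal.ofReal (C * N ^ ε) *
          eLpNorm (fun y : Space d => ∑ i,
            (box N (nor (ω i)) (f i) 0).indicator (fun _ => (1 : ℝ)) y) p volume := by
  have hd0 : (0 : ℝ) < d := by exact_mod_cast hd
  have hd1 : (1 : ℝ) ≤ d := by exact_mod_cast hd
  set η : ℝ := min ε (1 / 2) with hη
  have hη0 : 0 < η := lt_min hε (by norm_num)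
  have hηε : η ≤ ε := min_le_left _ _
  have hη2 : η ≤ 1 / 2 := min_le_right _ _
  have hdη : 0 < (d : ℝ) - η := by linarith
  set q : ℝ := ((d : ℝ) + 1) / (d - η) with hq
  have hq1 : 1 < q := by
    rw [hq, lt_div_iff₀ hdη]
    linarith
  have hqc : ((d : ℝ) + 1) / d < q := by
    rw [hq]
    apply div_lt_div_of_pos_left (by positivity) hdη
    linarith
  have hηq : d * q - d - 1 = η * q := by
    have : q * (d - η) = d + 1 := div_mul_cancel₀ _ hdη.ne'
    linarith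
  obtain ⟨E, hE0, hE⟩ := hP q hqc
  have hw0 : 0 < wv d := wv_pos d
  set b₀ : ℝ := (1 + (d : ℝ)) ^ (d + 1) * wv d with hb₀
  have hb0 : 0 < b₀ := by positivity
  set C0 : ℝ := max 1 (max (E * b₀ ^ (q - 1) * κ ^ (-(1 / (d : ℝ))))
    (E * κ ^ (-(1 / (d : ℝ))) * 2 ^ (d + 1) / wv d)) with hC0
  have hC1 : 1 ≤ C0 := le_max_left _ _
  have hC2 : E * b₀ ^ (q - 1) * κ ^ (-(1 / (d : ℝ))) ≤ C0 := (le_max_left _ _).trans (le_max_right _ _)
  have hC3 : E * κ ^ (-(1 / (d : ℝ))) * 2 ^ (d + 1) / wv d ≤ C0 := (le_max_right _ _).trans (le_max_right _ _)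
  have hC00 : 0 < C0 := by linarith
  have hq0 : 0 < q := by linarith
  refine ⟨C0 ^ (1 / q), Real.rpow_pos_of_pos hC00 _, ?_⟩
  intro N hN ι _ ω f a hPa hcard hf p hp
  have hN0 : 0 < N := by linarith
  have hc0 : (0 : ℝ) < (Fintype.card ι : ℝ) := lt_of_lt_of_le (by positivity) hcard
  have hne : Nonempty ι := by
    rw [← Fintype.card_pos_iff]
    exact_mod_cast hc0
  set D : ℝ := C0 ^ (1 / q) * N ^ ε with hD
  have hD1 : 1 ≤ D := by
    have h1 : 1 ≤ C0 ^ (1 / q) := Real.one_le_rpow hC1 (by positivity)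
    have h3 : 1 ≤ N ^ ε := Real.one_le_rpow hN hε.le
    calc (1 : ℝ) = 1 * 1 := by ring
      _ ≤ C0 ^ (1 / q) * N ^ ε := by gcongr
  have hDq : D ^ q = C0 * 1 * N ^ (ε * q) := by
    rw [hD, Real.mul_rpow (by positivity) (by positivity),
      ← Real.rpow_mul hC00.le, ← Real.rpow_mul hN0.le, one_div_mul_cancel hq0.ne', Real.rpow_one,
      mul_one]
  set Q : ℝ := E * 1 * N ^ (d + 2) * (Fintype.card ι : ℝ) ^ (q - 1 / d) with hQ
  have hQ0 : 0 < Q := by positivity
  have hQi : ∫⁻ y, Fb N ω f a y ^ q ≤ ENNReal.ofReal Q := by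
    rw [hQ, mul_one]
    exact hE N hN ι ω f a hPa
  refine compare d hN hq1 hQ0 hD1 ω f hf _ hQi ?_ ?_ p hp
  · rw [hDq]
    exact arith1 hd0 hE0 one_pos hq1 hηq hηε hN hκ hcard hb0 hC2
  · rw [hDq]
    exact arith2 hd0 hE0 one_pos hq1 hε hN hκ hcard hw0 hC3

/-- **Large exponents, without loss.** -/
theorem compare_sharp {d : ℕ} (hd : 1 ≤ d) {P : ∀ (N : ℝ) (ι : Type) [Fintype ι], (ι → Vec d) →
    (ι → Fin d → Space d) → (ι → Space d) → Prop} (hP : Moments d P) {q κ : ℝ}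
    (hq : ((d : ℝ) + 1) / d < q) (hκ : 0 < κ) :
    ∃ C : ℝ, 0 < C ∧ ∀ (N : ℝ), 1 ≤ N → ∀ (ι : Type) [Fintype ι] (ω : ι → Vec d)
      (f : ι → Fin d → Space d) (a : ι → Space d), P N ι ω f a → κ * N ^ d ≤ (Fintype.card ι : ℝ) →
      (∀ i, Orthonormal ℝ (Fin.cons (nor (ω i)) (f i) : Fin (d + 1) → Space d)) →
      ∀ p : ℝ≥0∞, ENNReal.ofReal q ≤ p →
      eLpNorm (fun y : Space d => ∑ i, (box N (nor (ω i)) (f i) (a i)).indicator
          (fun _ => (1 : ℝ)) y) p volume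
        ≤ ENNReal.ofReal C *
          eLpNorm (fun y : Space d => ∑ i,
            (box N (nor (ω i)) (f i) 0).indicator (fun _ => (1 : ℝ)) y) p volume := by
  have hd0 : (0 : ℝ) < d := by exact_mod_cast hd
  have hq1 : 1 < q := by
    refine lt_trans ?_ hq
    rw [lt_div_iff₀ hd0]
    linarith
  obtain ⟨E, hE0, hE⟩ := hP q hq
  have hw0 : 0 < wv d := wv_pos d
  set C0 : ℝ := max 1 (E * κ ^ (-(1 / (d : ℝ))) * 2 ^ (d + 1) / wv d) with hC0
  have hC1 : 1 ≤ C0 := le_max_left _ _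
  have hC3 : E * κ ^ (-(1 / (d : ℝ))) * 2 ^ (d + 1) / wv d ≤ C0 := le_max_right _ _
  have hC00 : 0 < C0 := by linarith
  have hq0 : 0 < q := by linarith
  refine ⟨C0 ^ (1 / q), Real.rpow_pos_of_pos hC00 _, ?_⟩
  intro N hN ι _ ω f a hPa hcard hf p hp
  have hN0 : 0 < N := by linarith
  have hc0 : (0 : ℝ) < (Fintype.card ι : ℝ) := lt_of_lt_of_le (by positivity) hcard
  have hne : Nonempty ι := by
    rw [← Fintype.card_pos_iff]
    exact_mod_cast hc0
  have hD1 : 1 ≤ C0 ^ (1 / q) := Real.one_le_rpow hC1 (by positivity)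
  refine compare_large d hN hq1.le hD1 ω f hf a (hE N hN ι ω f a hPa) ?_ p hp
  rw [← Real.rpow_mul hC00.le, one_div_mul_cancel hq0.ne', Real.rpow_one]
  set c : ℝ := (Fintype.card ι : ℝ) with hc
  have h1 := rpow_c hd0 hN0 hκ hcard q
  have e3 : N ^ (d + 2) * N ^ (-1 : ℝ) = N ^ (d + 1) := by
    rw [Real.rpow_neg_one, pow_succ N (d + 1)]
    field_simp
  calc E * N ^ (d + 2) * c ^ (q - 1 / d)
      ≤ E * N ^ (d + 2) * (c ^ q * (κ ^ (-(1 / (d : ℝ))) * N ^ (-1 : ℝ))) := by gcongr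
    _ = (E * κ ^ (-(1 / (d : ℝ))) * 2 ^ (d + 1) / wv d) * (c ^ q * ((N / 2) ^ (d + 1) * wv d)) := by
        rw [div_pow]
        have e4 : E * N ^ (d + 2) * (c ^ q * (κ ^ (-(1 / (d : ℝ))) * N ^ (-1 : ℝ))) =
          E * (c ^ q * κ ^ (-(1 / (d : ℝ)))) * (N ^ (d + 2) * N ^ (-1 : ℝ)) := by ring
        rw [e4, e3]
        field_simp
    _ ≤ _ := by gcongr

end Run7.h534.Cmp
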