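import Pool.Agent.Run7.h534.Cv.Sum

set_option autoImplicit false

/-!
The tube inequality for the tubes that pass near the points of finitely many curves of finite order.
-/

open MeasureTheory Set Filter Topology ENNReal NNReal Metric

namespace Run7.h534.Cv

open Pool.Agent.H742R2.Kk Pool.Agent.W767.Kc

/-- The tube of length `1` and radius `δ` with centre `a` and axis direction `e`. -/
def Tub {n : ℕ} (δ : ℝ) (a e : E n) : Set (E n) :=
  {y | |inner ℝ (y - a) e| ≤ 1 / 2 ∧ ‖(y - a) - (inner ℝ (y - a) e : ℝ) • e‖ ≤ δ}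

/-- The axis of direction `e` through `a` passes at distance at most `κ` from `p`, at distance at
most `S` from `a`. -/
def Near {n : ℕ} (S κ : ℝ) (a e p : E n) : Prop :=
  |inner ℝ (a - p) e| ≤ S ∧ ‖(a - p) - (inner ℝ (a - p) e : ℝ) • e‖ ≤ κ

/-- The slope of a direction. -/
noncomputable def slope {d : ℕ} (e : E (d + 1)) : E d := (e 0)⁻¹ • tl e

theorem tl_sub {d : ℕ} (p q : E (d + 1)) : tl (p - q) = tl p - tl q := by
  ext i; simp [tl]

theorem norm_tl_le {d : ℕ} (x : E (d + 1)) : ‖tl x‖ ≤ ‖x‖ := by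
  have h := norm_sq_eq x
  have h1 : ‖tl x‖ ^ 2 ≤ ‖x‖ ^ 2 := by nlinarith [sq_nonneg (x 0)]
  exact (pow_le_pow_iff_left₀ (norm_nonneg _) (norm_nonneg _) two_ne_zero).1 h1

theorem norm_slope_le {d : ℕ} {e : E (d + 1)} (he : e ∈ cone d) (h1 : ‖e‖ = 1) :
    ‖slope e‖ ≤ 1 := by
  have h0 := cone_zero he h1
  have h2 : 0 < e 0 := by linarith
  unfold slope
  rw [norm_smul, norm_inv, Real.norm_of_nonneg h2.le, inv_mul_le_one₀ h2]
  exact he

theorem slope_sep {d : ℕ} {e f : E (d + 1)} (he : e ∈ cone d) (h1 : ‖e‖ = 1) (hf : f ∈ cone d)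
    (h2 : ‖f‖ = 1) : ‖e - f‖ ≤ ‖slope e - slope f‖ := by
  have he0 := cone_zero he h1
  have hf0 := cone_zero hf h2
  have he1 : e 0 ≤ 1 := (le_abs_self _).trans ((abs_apply_le e 0).trans h1.le)
  have hf1 : f 0 ≤ 1 := (le_abs_self _).trans ((abs_apply_le f 0).trans h2.le)
  have hep : 0 < e 0 := by linarith
  have hfp : 0 < f 0 := by linarith
  set α := (e 0)⁻¹ with hα
  set β := (f 0)⁻¹ with hβ
  have hα1 : 1 ≤ α := (one_le_inv₀ hep).2 he1
  have hβ1 : 1 ≤ β := (one_le_inv₀ hfp).2 hf1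
  have e1 : ‖α • e - β • f‖ ^ 2 = ‖slope e - slope f‖ ^ 2 := by
    rw [norm_sq_eq]
    have e2 : (α • e - β • f) 0 = 0 := by
      show α * e 0 - β * f 0 = 0
      rw [hα, hβ, inv_mul_cancel₀ hep.ne', inv_mul_cancel₀ hfp.ne', sub_self]
    rw [e2, tl_sub, tl_smul, tl_smul]
    simp [slope, hα, hβ]
  have e3 : ‖α • e - β • f‖ ^ 2 = α ^ 2 - 2 * (α * β * inner ℝ e f) + β ^ 2 := by
    rw [norm_sub_sq_real, norm_smul, norm_smul, h1, h2, inner_smul_left, inner_smul_right,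
      Real.norm_of_nonneg (by linarith), Real.norm_of_nonneg (by linarith)]
    simp only [conj_trivial]
    ring
  have e4 : ‖e - f‖ ^ 2 = 2 - 2 * inner ℝ e f := by
    rw [norm_sub_sq_real, h1, h2]; ring
  have h3 : inner ℝ e f ≤ 1 := by
    have := real_inner_le_norm e f
    rw [h1, h2] at this
    linarith
  have h4 : ‖e - f‖ ^ 2 ≤ ‖slope e - slope f‖ ^ 2 := by
    rw [← e1, e3, e4]
    have h5 : 0 ≤ (α * β - 1) * (1 - inner ℝ e f) :=
      mul_nonneg (by nlinarith) (by linarith)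
    nlinarith [sq_nonneg (α - β)]
  exact (pow_le_pow_iff_left₀ (norm_nonneg _) (norm_nonneg _) two_ne_zero).1 h4

/-- A tube in a cone, in terms of slopes. -/
theorem tub_sub {d : ℕ} {e : E (d + 1)} (he : e ∈ cone d) (h1 : ‖e‖ = 1) {a p y : E (d + 1)}
    {δ K S : ℝ} (hδ : 0 < δ) (hδ1 : δ ≤ 1) (hK : 0 ≤ K) (hS : 0 ≤ S) (hN : Near S (K * δ) a e p)
    (hy : y ∈ Tub δ a e) :
    y ∈ Tc p (slope e) ((2 * (K + S) + 3) * δ) (2 * (K + S) + 3) := by
  obtain ⟨hy1, hy2⟩ := hy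
  obtain ⟨hp1, hp2⟩ := hN
  set s : ℝ := inner ℝ (y - a) e with hs
  set s' : ℝ := inner ℝ (a - p) e with hs'
  set w : E (d + 1) := ((y - a) - s • e) + ((a - p) - s' • e) with hw
  have hwn : ‖w‖ ≤ (K + 1) * δ := by
    refine (norm_add_le _ _).trans ?_
    linarith
  have hyp : y - p = (s + s') • e + w := by
    rw [hw, add_smul]; abel
  have he0 := cone_zero he h1
  have hep : 0 < e 0 := by linarith
  have he1 : e 0 ≤ 1 := (le_abs_self _).trans ((abs_apply_le e 0).trans h1.le)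
  have hw0 : |w 0| ≤ ‖w‖ := abs_apply_le w 0
  have h0 : y 0 - p 0 = (s + s') * e 0 + w 0 := by
    have := congrArg (fun z : E (d + 1) => z 0) hyp
    simpa using this
  have ht : tl y - tl p = (s + s') • tl e + tl w := by
    rw [← tl_sub, hyp, tl_add, tl_smul]
  refine ⟨?_, ?_⟩
  · rw [h0]
    have h2 : |s + s'| ≤ 1 / 2 + S := (abs_add_le _ _).trans (by linarith)
    calc |(s + s') * e 0 + w 0| ≤ |(s + s') * e 0| + |w 0| := abs_add_le _ _
      _ ≤ (1 / 2 + S) * 1 + (K + 1) * 1 := by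
          rw [abs_mul, abs_of_pos hep]
          have h3 : (K + 1) * δ ≤ (K + 1) * 1 := by gcongr
          have h4 : |s + s'| * e 0 ≤ (1 / 2 + S) * 1 := by gcongr
          linarith
      _ ≤ _ := by linarith
  · have e2 : tl y - tl p - (y 0 - p 0) • slope e = tl w - w 0 • slope e := by
      rw [ht, h0, add_smul ((s + s') * e 0) (w 0), slope, smul_smul ((s + s') * e 0), mul_assoc,
        mul_inv_cancel₀ hep.ne', mul_one]
      abel
    rw [e2]
    have h3 := norm_slope_le he h1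
    calc ‖tl w - w 0 • slope e‖ ≤ ‖tl w‖ + ‖w 0 • slope e‖ := norm_sub_le _ _
      _ ≤ ‖w‖ + ‖w‖ * 1 := by
          rw [norm_smul, Real.norm_eq_abs]
          have := norm_tl_le w
          gcongr
      _ ≤ _ := by nlinarith

/-- **The tube inequality for tubes near finitely many curves of finite order.** -/
theorem curve_tubes {d : ℕ} (hd : 2 ≤ d) {q : ℝ} (hq : 1 + 1 / (d:ℝ) < q) (m N : ℕ) {K S : ℝ}
    (hK : 0 ≤ K) (hS : 0 ≤ S) :
    ∃ C : ℝ≥0∞, C ≠ ∞ ∧ ∀ γ : Fin m → ℝ → E (d + 1), (∀ k, Continuous (γ k)) →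
      (∀ k, OrderLE N (γ k)) → ∀ δ : ℝ, 0 < δ → δ ≤ 1 → ∀ T : Finset (E (d + 1) × E (d + 1)),
      (∀ p ∈ T, ‖p.2‖ = 1) → (∀ p ∈ T, ∀ p' ∈ T, p ≠ p' → δ ≤ ‖p.2 - p'.2‖) →
      (∀ p ∈ T, ∃ k t, Near S (K * δ) p.1 p.2 (γ k t)) →
      (∫⁻ y, Fs T (fun p => Tub δ p.1 p.2) y ^ q) ^ (1 / q)
        ≤ C * (ENNReal.ofReal (δ ^ d * (T.card : ℝ) ^ (q - 1 / d))) ^ (1 / q) := by
  classical
  have hd0 : (2:ℝ) ≤ d := by exact_mod_cast hd
  have hdpos : (0:ℝ) < d := by linarith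
  have hd1 : (0:ℝ) < 1 / d := by positivity
  have hd2 : 1 / (d:ℝ) ≤ 1 := by rw [div_le_one hdpos]; linarith
  have hq1 : 1 ≤ q := by linarith
  have hq0 : 0 < q := by linarith
  have hq' : 0 ≤ 1 / q := by positivity
  have hqd : 0 ≤ q - 1 / d := by linarith
  obtain ⟨s, hs⟩ := exists_rot d
  set B := 2 * (K + S) + 3 with hB
  have hB1 : 1 ≤ B := by rw [hB]; linarith
  obtain ⟨C0, hC0, h0⟩ := chart_all hd N hB1 hq
  set J : Finset ((E (d + 1) ≃ₗᵢ[ℝ] E (d + 1)) × Fin m) := s ×ˢ Finset.univ with hJ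
  refine ⟨J.card * C0 ^ (1 / q), ENNReal.mul_ne_top (ENNReal.natCast_ne_top _)
    (ENNReal.rpow_ne_top_of_nonneg hq' hC0), ?_⟩
  intro γ hγ hN δ hδ hδ1 T hT1 hT2 hT3
  set τ : Fin m → E (d + 1) × E (d + 1) → ℝ := fun k p =>
    Classical.epsilon (fun t : ℝ => Near S (K * δ) p.1 p.2 (γ k t)) with hτ
  set I : (E (d + 1) ≃ₗᵢ[ℝ] E (d + 1)) × Fin m → Finset (E (d + 1) × E (d + 1)) := fun c =>
    T.filter (fun p => c.1 p.2 ∈ cone d ∧ Near S (K * δ) p.1 p.2 (γ c.2 (τ c.2 p))) with hI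
  set G : (E (d + 1) ≃ₗᵢ[ℝ] E (d + 1)) × Fin m → E (d + 1) → ℝ≥0∞ := fun c =>
    Fs (I c) (fun p => Tc (c.1 (γ c.2 (τ c.2 p))) (slope (c.1 p.2)) (B * δ) B) with hG
  have hGm : ∀ c, Measurable (G c) := fun c => measurable_Fs _ (fun p => measurableSet_Tc _ _ _ _)
  have hpt : ∀ y, Fs T (fun p => Tub δ p.1 p.2) y ≤ ∑ c ∈ J, G c (c.1 y) := by
    intro y
    simp only [hG, Fs]
    have e1 : ∀ c, ∑ p ∈ I c, (Tc (c.1 (γ c.2 (τ c.2 p))) (slope (c.1 p.2)) (B * δ) B).indicator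
        (fun _ => (1:ℝ≥0∞)) (c.1 y) = ∑ p ∈ T, if c.1 p.2 ∈ cone d ∧
          Near S (K * δ) p.1 p.2 (γ c.2 (τ c.2 p)) then
          (Tc (c.1 (γ c.2 (τ c.2 p))) (slope (c.1 p.2)) (B * δ) B).indicator
            (fun _ => (1:ℝ≥0∞)) (c.1 y) else 0 := fun c => Finset.sum_filter _ _
    simp_rw [e1]
    rw [Finset.sum_comm]
    apply Finset.sum_le_sum
    intro p hp
    by_cases hy : y ∈ Tub δ p.1 p.2
    swap
    · rw [indicator_of_notMem hy]; exact zero_le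
    rw [indicator_of_mem hy]
    obtain ⟨R, hR, hRc⟩ := hs p.2 (hT1 p hp)
    obtain ⟨k, t, hkt⟩ := hT3 p hp
    have hnear : Near S (K * δ) p.1 p.2 (γ k (τ k p)) :=
      Classical.epsilon_spec (p := fun t : ℝ => Near S (K * δ) p.1 p.2 (γ k t)) ⟨t, hkt⟩
    have hmem : (R, k) ∈ J := Finset.mem_product.2 ⟨hR, Finset.mem_univ _⟩
    have h2 := Finset.single_le_sum (s := J) (f := fun c : (E (d + 1) ≃ₗᵢ[ℝ] E (d + 1)) × Fin m =>
      if c.1 p.2 ∈ cone d ∧ Near S (K * δ) p.1 p.2 (γ c.2 (τ c.2 p)) then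
          (Tc (c.1 (γ c.2 (τ c.2 p))) (slope (c.1 p.2)) (B * δ) B).indicator
            (fun _ => (1:ℝ≥0∞)) (c.1 y) else 0) (fun _ _ => zero_le) hmem
    refine le_trans ?_ h2
    simp only [hRc, hnear, and_self, if_true]
    rw [indicator_of_mem]
    have hin : ∀ u v : E (d + 1), inner ℝ (R u) (R v) = inner ℝ u v := R.inner_map_map
    apply tub_sub (a := R p.1) hRc (by rw [R.norm_map]; exact hT1 p hp) hδ hδ1 hK hS
    · refine ⟨?_, ?_⟩
      · rw [← map_sub, hin]; exact hnear.1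
      · rw [← map_sub, hin, ← map_smul, ← map_sub, R.norm_map]; exact hnear.2
    · refine ⟨?_, ?_⟩
      · rw [← map_sub, hin]; exact hy.1
      · rw [← map_sub, hin, ← map_smul, ← map_sub, R.norm_map]; exact hy.2
  have hGi : ∀ c ∈ J, ∫⁻ y, G c (c.1 y) ^ q
      ≤ C0 * ENNReal.ofReal (δ ^ d * (T.card : ℝ) ^ (q - 1 / d)) := by
    intro c _
    rw [c.1.measurePreserving.lintegral_comp (f := fun y => G c y ^ q) ((hGm c).pow_const q)]
    rcases (I c).eq_empty_or_nonempty with hne | hne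
    · have e : ∀ y, G c y = 0 := by
        intro y
        simp only [hG, Fs, hne, Finset.sum_empty]
      simp only [e, ENNReal.zero_rpow_of_pos hq0, lintegral_zero]
      exact zero_le
    have h2 := h0 (fun t => c.1 (γ c.2 t)) (c.1.continuous.comp (hγ c.2)) ((hN c.2).map c.1) δ hδ _
      (I c) (fun p => τ c.2 p) (fun p => slope (c.1 p.2)) (by
        intro p hp p' hp' hpp
        obtain ⟨hp1, hp2, _⟩ := Finset.mem_filter.1 hp
        obtain ⟨hp1', hp2', _⟩ := Finset.mem_filter.1 hp'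
        refine le_trans ?_ (slope_sep hp2 (by rw [c.1.norm_map]; exact hT1 p hp1) hp2'
          (by rw [c.1.norm_map]; exact hT1 p' hp1'))
        rw [← map_sub, c.1.norm_map]
        exact hT2 p hp1 p' hp1' hpp) hne
    refine h2.trans ?_
    gcongr
    exact Finset.filter_subset _ _
  calc (∫⁻ y, Fs T (fun p => Tub δ p.1 p.2) y ^ q) ^ (1 / q)
      ≤ (∫⁻ y, (∑ c ∈ J, G c (c.1 y)) ^ q) ^ (1 / q) := by
        gcongr with y
        exact hpt y
    _ ≤ ∑ c ∈ J, (∫⁻ y, G c (c.1 y) ^ q) ^ (1 / q) :=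
        mink hq1 J (fun c y => G c (c.1 y)) (fun c => (hGm c).comp c.1.continuous.measurable)
    _ ≤ ∑ _c ∈ J, (C0 * ENNReal.ofReal (δ ^ d * (T.card : ℝ) ^ (q - 1 / d))) ^ (1 / q) := by
        apply Finset.sum_le_sum
        intro c hc
        have := hGi c hc
        gcongr
    _ = _ := by
        rw [Finset.sum_const, nsmul_eq_mul, ENNReal.mul_rpow_of_nonneg _ _ hq', mul_assoc]

end Run7.h534.Cv
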