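import Pool.Agent.Run7.h534.Cv.Fin

set_option autoImplicit false

/-!
The inequality for arbitrary subsets of tubes near finitely many curves of finite order.
-/

open MeasureTheory Set Filter Topology ENNReal NNReal Metric

namespace Run7.h534.Cv

open Pool.Agent.H742R2.Kk Pool.Agent.W767.Kc

/-- A point near a line in a cone, in terms of slopes. -/
theorem gen_sub {d : ℕ} {e : E (d + 1)} (he : e ∈ cone d) (h1 : ‖e‖ = 1) {a p y : E (d + 1)}
    {δ K S : ℝ} (hδ : 0 < δ) (hδ1 : δ ≤ 1) (hK : 0 ≤ K) (hS : 0 ≤ S) (hN : Near S (K * δ) a e p)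
    (hy : Near S (K * δ) y e a) :
    y ∈ Tc p (slope e) ((4 * (K + S) + 1) * δ) (4 * (K + S) + 1) := by
  obtain ⟨hy1, hy2⟩ := hy
  obtain ⟨hp1, hp2⟩ := hN
  set s : ℝ := inner ℝ (y - a) e with hs
  set s' : ℝ := inner ℝ (a - p) e with hs'
  set w : E (d + 1) := ((y - a) - s • e) + ((a - p) - s' • e) with hw
  have hwn : ‖w‖ ≤ 2 * K * δ := by
    refine (norm_add_le _ _).trans ?_
    linarith
  have hyp : y - p = (s + s') • e + w := by
    rw [hw, add_smul]; abel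
  have he0 := cone_zero he h1
  have hep : 0 < e 0 := by linarith
  have he1 : e 0 ≤ 1 := (le_abs_self _).trans ((abs_apply_le e 0).trans h1.le)
  have hw0 : |w 0| ≤ ‖w‖ := abs_apply_le w 0
  have h0 : y 0 - p 0 = (s + s') * e 0 + w 0 := by
    have := congrArg (fun z : E (d + 1) => z 0) hyp
    simpa using this
  have ht : tl y - tl p = (s + s') • tl e + tl w := by
    rw [← tl_sub, hyp, tl_add, tl_smul]
  refine ⟨?_, ?_⟩
  · rw [h0]
    have h2 : |s + s'| ≤ 2 * S := (abs_add_le _ _).trans (by linarith)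
    calc |(s + s') * e 0 + w 0| ≤ |(s + s') * e 0| + |w 0| := abs_add_le _ _
      _ ≤ (2 * S) * 1 + 2 * K * 1 := by
          rw [abs_mul, abs_of_pos hep]
          have h3 : 2 * K * δ ≤ 2 * K * 1 := by gcongr
          have h4 : |s + s'| * e 0 ≤ (2 * S) * 1 := by gcongr
          linarith
      _ ≤ _ := by linarith
  · have e2 : tl y - tl p - (y 0 - p 0) • slope e = tl w - w 0 • slope e := by
      rw [ht, h0, add_smul ((s + s') * e 0) (w 0), slope, smul_smul ((s + s') * e 0), mul_assoc,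
        mul_inv_cancel₀ hep.ne', mul_one]
      abel
    rw [e2]
    have h3 := norm_slope_le he h1
    calc ‖tl w - w 0 • slope e‖ ≤ ‖tl w‖ + ‖w 0 • slope e‖ := norm_sub_le _ _
      _ ≤ ‖w‖ + ‖w‖ * 1 := by
          rw [norm_smul, Real.norm_eq_abs]
          have := norm_tl_le w
          gcongr
      _ ≤ _ := by nlinarith

/-- **The inequality for sets near lines that pass near finitely many curves of finite order.** -/
theorem curve_gen {d : ℕ} (hd : 2 ≤ d) {q : ℝ} (hq : 1 + 1 / (d:ℝ) < q) (m N : ℕ) {K S : ℝ}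
    (hK : 0 ≤ K) (hS : 0 ≤ S) :
    ∃ C : ℝ≥0∞, C ≠ ∞ ∧ ∀ γ : Fin m → ℝ → E (d + 1), (∀ k, Continuous (γ k)) →
      (∀ k, OrderLE N (γ k)) → ∀ δ : ℝ, 0 < δ → δ ≤ 1 → ∀ (ι : Type) (T : Finset ι)
      (a e : ι → E (d + 1)) (U : ι → Set (E (d + 1))),
      (∀ i ∈ T, ‖e i‖ = 1) → (∀ i ∈ T, ∀ j ∈ T, i ≠ j → δ ≤ ‖e i - e j‖) →
      (∀ i ∈ T, ∃ k t, Near S (K * δ) (a i) (e i) (γ k t)) →
      (∀ i ∈ T, ∀ y ∈ U i, Near S (K * δ) y (e i) (a i)) →
      (∫⁻ y, Fs T U y ^ q) ^ (1 / q)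
        ≤ C * (ENNReal.ofReal (δ ^ d * (T.card : ℝ) ^ (q - 1 / d))) ^ (1 / q) := by
  classical
  have hd0 : (2:ℝ) ≤ d := by exact_mod_cast hd
  have hdpos : (0:ℝ) < d := by linarith
  have hd1 : (0:ℝ) < 1 / d := by positivity
  have hd2 : 1 / (d:ℝ) ≤ 1 := by rw [div_le_one hdpos]; linarith
  have hq1 : 1 ≤ q := by linarith
  have hq0 : 0 < q := by linarith
  have hq' : 0 ≤ 1 / q := by positivity
  have hqd : 0 ≤ q - 1 / d := by linarith
  obtain ⟨s, hs⟩ := exists_rot d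
  set B := 4 * (K + S) + 1 with hB
  have hB1 : 1 ≤ B := by rw [hB]; linarith
  obtain ⟨C0, hC0, h0⟩ := chart_all hd N hB1 hq
  set J : Finset ((E (d + 1) ≃ₗᵢ[ℝ] E (d + 1)) × Fin m) := s ×ˢ Finset.univ with hJ
  refine ⟨J.card * C0 ^ (1 / q), ENNReal.mul_ne_top (ENNReal.natCast_ne_top _)
    (ENNReal.rpow_ne_top_of_nonneg hq' hC0), ?_⟩
  intro γ hγ hN δ hδ hδ1 ι T a e U hT1 hT2 hT3 hT4
  set τ : Fin m → ι → ℝ := fun k i =>
    Classical.epsilon (fun t : ℝ => Near S (K * δ) (a i) (e i) (γ k t)) with hτ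
  set I : (E (d + 1) ≃ₗᵢ[ℝ] E (d + 1)) × Fin m → Finset ι := fun c =>
    T.filter (fun i => c.1 (e i) ∈ cone d ∧ Near S (K * δ) (a i) (e i) (γ c.2 (τ c.2 i))) with hI
  set G : (E (d + 1) ≃ₗᵢ[ℝ] E (d + 1)) × Fin m → E (d + 1) → ℝ≥0∞ := fun c =>
    Fs (I c) (fun i => Tc (c.1 (γ c.2 (τ c.2 i))) (slope (c.1 (e i))) (B * δ) B) with hG
  have hGm : ∀ c, Measurable (G c) := fun c => measurable_Fs _ (fun p => measurableSet_Tc _ _ _ _)
  have hpt : ∀ y, Fs T U y ≤ ∑ c ∈ J, G c (c.1 y) := by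
    intro y
    simp only [hG, Fs]
    have e1 : ∀ c, ∑ i ∈ I c, (Tc (c.1 (γ c.2 (τ c.2 i))) (slope (c.1 (e i))) (B * δ) B).indicator
        (fun _ => (1:ℝ≥0∞)) (c.1 y) = ∑ i ∈ T, if c.1 (e i) ∈ cone d ∧
          Near S (K * δ) (a i) (e i) (γ c.2 (τ c.2 i)) then
          (Tc (c.1 (γ c.2 (τ c.2 i))) (slope (c.1 (e i))) (B * δ) B).indicator
            (fun _ => (1:ℝ≥0∞)) (c.1 y) else 0 := fun c => Finset.sum_filter _ _
    simp_rw [e1]
    rw [Finset.sum_comm]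
    apply Finset.sum_le_sum
    intro i hi
    by_cases hy : y ∈ U i
    swap
    · rw [indicator_of_notMem hy]; exact zero_le
    rw [indicator_of_mem hy]
    obtain ⟨R, hR, hRc⟩ := hs (e i) (hT1 i hi)
    obtain ⟨k, t, hkt⟩ := hT3 i hi
    have hnear : Near S (K * δ) (a i) (e i) (γ k (τ k i)) :=
      Classical.epsilon_spec (p := fun t : ℝ => Near S (K * δ) (a i) (e i) (γ k t)) ⟨t, hkt⟩
    have hmem : (R, k) ∈ J := Finset.mem_product.2 ⟨hR, Finset.mem_univ _⟩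
    have h2 := Finset.single_le_sum (s := J) (f := fun c : (E (d + 1) ≃ₗᵢ[ℝ] E (d + 1)) × Fin m =>
      if c.1 (e i) ∈ cone d ∧ Near S (K * δ) (a i) (e i) (γ c.2 (τ c.2 i)) then
          (Tc (c.1 (γ c.2 (τ c.2 i))) (slope (c.1 (e i))) (B * δ) B).indicator
            (fun _ => (1:ℝ≥0∞)) (c.1 y) else 0) (fun _ _ => zero_le) hmem
    refine le_trans ?_ h2
    simp only [hRc, hnear, and_self, if_true]
    rw [indicator_of_mem]
    have hin : ∀ u v : E (d + 1), inner ℝ (R u) (R v) = inner ℝ u v := R.inner_map_map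
    have hyn := hT4 i hi y hy
    apply gen_sub (a := R (a i)) hRc (by rw [R.norm_map]; exact hT1 i hi) hδ hδ1 hK hS
    · refine ⟨?_, ?_⟩
      · rw [← map_sub, hin]; exact hnear.1
      · rw [← map_sub, hin, ← map_smul, ← map_sub, R.norm_map]; exact hnear.2
    · refine ⟨?_, ?_⟩
      · rw [← map_sub, hin]; exact hyn.1
      · rw [← map_sub, hin, ← map_smul, ← map_sub, R.norm_map]; exact hyn.2
  have hGi : ∀ c ∈ J, ∫⁻ y, G c (c.1 y) ^ q
      ≤ C0 * ENNReal.ofReal (δ ^ d * (T.card : ℝ) ^ (q - 1 / d)) := by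
    intro c _
    rw [c.1.measurePreserving.lintegral_comp (f := fun y => G c y ^ q) ((hGm c).pow_const q)]
    rcases (I c).eq_empty_or_nonempty with hne | hne
    · have e : ∀ y, G c y = 0 := by
        intro y
        simp only [hG, Fs, hne, Finset.sum_empty]
      simp only [e, ENNReal.zero_rpow_of_pos hq0, lintegral_zero]
      exact zero_le
    have h2 := h0 (fun t => c.1 (γ c.2 t)) (c.1.continuous.comp (hγ c.2)) ((hN c.2).map c.1) δ hδ _
      (I c) (fun i => τ c.2 i) (fun i => slope (c.1 (e i))) (by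
        intro p hp p' hp' hpp
        obtain ⟨hp1, hp2, _⟩ := Finset.mem_filter.1 hp
        obtain ⟨hp1', hp2', _⟩ := Finset.mem_filter.1 hp'
        refine le_trans ?_ (slope_sep hp2 (by rw [c.1.norm_map]; exact hT1 p hp1) hp2'
          (by rw [c.1.norm_map]; exact hT1 p' hp1'))
        rw [← map_sub, c.1.norm_map]
        exact hT2 p hp1 p' hp1' hpp) hne
    refine h2.trans ?_
    gcongr
    exact Finset.filter_subset _ _
  calc (∫⁻ y, Fs T U y ^ q) ^ (1 / q)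
      ≤ (∫⁻ y, (∑ c ∈ J, G c (c.1 y)) ^ q) ^ (1 / q) := by
        gcongr with y
        exact hpt y
    _ ≤ ∑ c ∈ J, (∫⁻ y, G c (c.1 y) ^ q) ^ (1 / q) :=
        mink hq1 J (fun c y => G c (c.1 y)) (fun c => (hGm c).comp c.1.continuous.measurable)
    _ ≤ ∑ _c ∈ J, (C0 * ENNReal.ofReal (δ ^ d * (T.card : ℝ) ^ (q - 1 / d))) ^ (1 / q) := by
        apply Finset.sum_le_sum
        intro c hc
        have := hGi c hc
        gcongr
    _ = _ := by
        rw [Finset.sum_const, nsmul_eq_mul, ENNReal.mul_rpow_of_nonneg _ _ hq', mul_assoc]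

end Run7.h534.Cv
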