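import Pool.Agent.Run7.h534.Cv.Gen
import Pool.Agent.H810R3.Tub.Compare

set_option autoImplicit false

/-!
The moments of the sum of the boxes dual to the caps of the paraboloid, if the axes pass near points
of finitely many curves of finite order.
-/

open MeasureTheory Set Filter Topology ENNReal NNReal Metric

namespace Run7.h534.Cv

open Pool.Agent.H742R2.Kk (E)
open Pool.Agent.W767.Kc (OrderLE)
open Pool.Agent.H810R3.Tub (Vec Space dir nor box Fb finrank_space box_perp lint_smul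
  box_closed Fb_measurable)

/-- The curve `γ` is of order at most `N`. -/
def OrderH {H : Type*} [NormedAddCommGroup H] [InnerProductSpace ℝ H] (N : ℕ) (γ : ℝ → H) : Prop :=
  ∀ ν : H, ν ≠ 0 → ∀ᵐ c : ℝ, {u : ℝ | inner ℝ ν (γ u) = c}.encard ≤ N

theorem OrderH.map {H : Type*} [NormedAddCommGroup H] [InnerProductSpace ℝ H] {n N : ℕ}
    {γ : ℝ → H} (hN : OrderH N γ) (R : H ≃ₗᵢ[ℝ] E n) : OrderLE N (fun t => R (γ t)) := by
  intro ν hν
  have h1 := hN (R.symm ν) (by simpa using hν)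
  have e : ∀ t, inner ℝ ν (R (γ t)) = inner ℝ (R.symm ν) (γ t) := by
    intro t
    conv_lhs => rw [← R.apply_symm_apply ν]
    rw [R.inner_map_map]
  simp_rw [e]
  exact h1

theorem dir_fst {d : ℕ} (v : Vec d) : (dir v).fst = (dir v).snd • v := by
  show (√(1 + ‖v‖ ^ 2))⁻¹ • v = ((√(1 + ‖v‖ ^ 2))⁻¹ * 1) • v
  rw [mul_one]

theorem dir_snd {d : ℕ} (v : Vec d) : (dir v).snd = (√(1 + ‖v‖ ^ 2))⁻¹ := by
  show (√(1 + ‖v‖ ^ 2))⁻¹ * 1 = _
  rw [mul_one]

theorem norm_fst_le {d : ℕ} (x : Space d) : ‖x.fst‖ ≤ ‖x‖ := by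
  have h := Pool.Agent.H810R3.Tub.norm_space_sq x
  have h1 : ‖x.fst‖ ^ 2 ≤ ‖x‖ ^ 2 := by nlinarith [sq_nonneg x.snd]
  exact (pow_le_pow_iff_left₀ (norm_nonneg _) (norm_nonneg _) two_ne_zero).1 h1

theorem abs_snd_le {d : ℕ} (x : Space d) : |x.snd| ≤ ‖x‖ := by
  have h := Pool.Agent.H810R3.Tub.norm_space_sq x
  have h1 : |x.snd| ^ 2 ≤ ‖x‖ ^ 2 := by rw [sq_abs]; nlinarith [sq_nonneg ‖x.fst‖]
  exact (pow_le_pow_iff_left₀ (abs_nonneg _) (norm_nonneg _) two_ne_zero).1 h1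

/-- The directions of separated slopes are separated. -/
theorem dir_lower {d : ℕ} {v w : Vec d} (hv : ‖v‖ ≤ 2) (hw : ‖w‖ ≤ 2) :
    ‖v - w‖ ≤ 8 * ‖dir v - dir w‖ := by
  set D := ‖dir v - dir w‖ with hD
  have hs : ∀ u : Vec d, ‖u‖ ≤ 2 → 0 < (dir u).snd ∧ 2 / 5 ≤ (dir u).snd := by
    intro u hu
    have h1 : √(1 + ‖u‖ ^ 2) ≤ 5 / 2 := by
      apply Real.sqrt_le_iff.2
      constructor
      · norm_num
      · nlinarith [norm_nonneg u]
    have h2 : 0 < √(1 + ‖u‖ ^ 2) := by positivity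
    rw [dir_snd]
    refine ⟨by positivity, ?_⟩
    rw [le_inv_comm₀ (by norm_num) h2]
    linarith
  obtain ⟨he, he2⟩ := hs v hv
  have h1 : ‖(dir v).fst - (dir w).fst‖ ≤ D := norm_fst_le (dir v - dir w)
  have h2 : |(dir v).snd - (dir w).snd| ≤ D := abs_snd_le (dir v - dir w)
  have e : (dir v).snd • (v - w) = ((dir v).fst - (dir w).fst) - ((dir v).snd - (dir w).snd) • w := by
    rw [dir_fst v, dir_fst w, smul_sub, sub_smul]; abel
  have h3 : (dir v).snd * ‖v - w‖ ≤ D + D * 2 := by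
    calc (dir v).snd * ‖v - w‖ = ‖(dir v).snd • (v - w)‖ := by
          rw [norm_smul, Real.norm_of_nonneg he.le]
      _ ≤ ‖(dir v).fst - (dir w).fst‖ + ‖((dir v).snd - (dir w).snd) • w‖ := by
          rw [e]; exact norm_sub_le _ _
      _ ≤ D + D * 2 := by
          rw [norm_smul, Real.norm_eq_abs]
          have hD0 : 0 ≤ D := norm_nonneg _
          gcongr
  have h4 : 0 ≤ ‖v - w‖ := norm_nonneg _
  nlinarith

/-- An isometry to the standard Euclidean space. -/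
noncomputable def iso (d : ℕ) : Space d ≃ₗᵢ[ℝ] E (d + 1) :=
  ((stdOrthonormalBasis ℝ (Space d)).reindex (finCongr finrank_space)).repr

/-- **The moments.** -/
theorem box_moment (d : ℕ) (hd : 2 ≤ d) (q : ℝ) (hq : ((d : ℝ) + 1) / d < q) (σ : ℝ) (hσ : 0 < σ)
    (hσ1 : σ ≤ 1) (m N₀ : ℕ) (K S : ℝ) (hK : 0 ≤ K) (hS : 0 ≤ S) :
    ∃ C : ℝ, 0 < C ∧ ∀ γ : Fin m → ℝ → Space d, (∀ k, Continuous (γ k)) →
      (∀ k, OrderH N₀ (γ k)) → ∀ N : ℝ, 1 ≤ N → ∀ (ι : Type) [Fintype ι] (ω : ι → Vec d)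
        (a : ι → Space d) (f : ι → Fin d → Space d),
        (∀ i, ‖ω i‖ ≤ 1) → (∀ i j, i ≠ j → σ / N ≤ ‖ω i - ω j‖) →
        (∀ i, Orthonormal ℝ (Fin.cons (nor (ω i)) (f i) : Fin (d + 1) → Space d)) →
        (∀ i, ∃ k t, |inner ℝ (a i - γ k t) (nor (ω i))| ≤ S * N ^ 2 ∧
          ‖(a i - γ k t) - (inner ℝ (a i - γ k t) (nor (ω i)) : ℝ) • nor (ω i)‖ ≤ K * N) →
        ∫⁻ y, Fb N ω f a y ^ q
          ≤ ENNReal.ofReal (C * N ^ (d + 2) * (Fintype.card ι : ℝ) ^ (q - 1 / d)) := by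
  classical
  have hd0 : (2:ℝ) ≤ d := by exact_mod_cast hd
  have hdpos : (0:ℝ) < d := by linarith
  have hq2 : 1 + 1 / (d:ℝ) < q := by
    refine lt_of_le_of_lt (le_of_eq ?_) hq
    field_simp
  have hd1 : (0:ℝ) < 1 / d := by positivity
  have hq0 : 0 < q := by linarith
  set K' := (4 * K + 2 * d) / σ with hK'
  set S' := S + 1 / 2 with hS'
  have hK'0 : 0 ≤ K' := by positivity
  have hS'0 : 0 ≤ S' := by positivity
  obtain ⟨C, hC, h⟩ := curve_gen hd hq2 m N₀ hK'0 hS'0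
  have hCq : C ^ q ≠ ∞ := ENNReal.rpow_ne_top_of_nonneg hq0.le hC
  refine ⟨(C ^ q).toReal * (σ / 4) ^ d + 1, by positivity, ?_⟩
  intro γ hγ hN N hN1 ι _ ω a f hω hsep hf hnear
  have hN0 : 0 < N := by linarith
  set δ := σ / (4 * N) with hδ
  have hδ0 : 0 < δ := by positivity
  have hδ1 : δ ≤ 1 := by
    rw [hδ, div_le_one (by positivity)]
    linarith
  set c : ℝ := (N ^ 2)⁻¹ with hc
  have hc0 : 0 < c := by positivity
  have hcN : c * N ^ 2 = 1 := by rw [hc]; field_simp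
  have hcN1 : c * N = N⁻¹ := by rw [hc]; field_simp
  set φ := iso d with hφ
  have hin : ∀ u v : Space d, inner ℝ (φ u) (φ v) = inner ℝ u v := φ.inner_map_map
  set U : ι → Set (E (d + 1)) := fun i =>
    {z | φ.symm ((N ^ 2) • z) ∈ box N (nor (ω i)) (f i) (a i)} with hU
  -- the near relation after scaling
  have hscale : ∀ (x y e : Space d) (s k : ℝ), |inner ℝ (x - y) e| ≤ s * N ^ 2 →
      ‖(x - y) - (inner ℝ (x - y) e : ℝ) • e‖ ≤ k * N →
      Near s (4 * k / σ * δ) (c • φ x) (φ e) (c • φ y) := by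
    intro x y e s k h1 h2
    have e1 : c • φ x - c • φ y = c • φ (x - y) := by rw [map_sub, smul_sub]
    have e2 : inner ℝ (c • φ x - c • φ y) (φ e) = c * inner ℝ (x - y) e := by
      rw [e1, inner_smul_left, hin]
      simp
    refine ⟨?_, ?_⟩
    · rw [e2, abs_mul, abs_of_pos hc0]
      calc c * |inner ℝ (x - y) e| ≤ c * (s * N ^ 2) := by gcongr
        _ = s := by rw [mul_left_comm, hcN, mul_one]
    · have e3 : c • φ x - c • φ y - (inner ℝ (c • φ x - c • φ y) (φ e) : ℝ) • φ e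
          = c • φ ((x - y) - (inner ℝ (x - y) e : ℝ) • e) := by
        rw [e2, e1, map_sub φ (x - y), map_smul, smul_sub c (φ (x - y)), mul_smul]
      rw [e3, norm_smul, φ.norm_map, Real.norm_of_nonneg hc0.le]
      calc c * ‖(x - y) - (inner ℝ (x - y) e : ℝ) • e‖ ≤ c * (k * N) := by gcongr
        _ = k * (c * N) := by ring
        _ = 4 * k / σ * δ := by rw [hcN1, hδ]; field_simp
  have hmono : ∀ {x e y : E (d + 1)} {s s' k k' : ℝ}, s ≤ s' → k ≤ k' →
      Near s k x e y → Near s' k' x e y := fun h1 h2 h3 => ⟨h3.1.trans h1, h3.2.trans h2⟩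
  have key := h (fun k t => c • φ (γ k t))
    (fun k => (φ.continuous.comp (hγ k)).const_smul c)
    (fun k => ((hN k).map φ).smul hc0.ne') δ hδ0 hδ1 ι Finset.univ (fun i => c • φ (a i))
    (fun i => φ (nor (ω i))) U (by
      intro i _
      rw [φ.norm_map]
      exact Pool.Agent.H810R3.Tub.norm_dir _) (by
      intro i _ j _ hij
      rw [← map_sub, φ.norm_map]
      have h1 := dir_lower (v := -(2:ℝ) • ω i) (w := -(2:ℝ) • ω j) (by
        rw [norm_smul, norm_neg, Real.norm_of_nonneg zero_le_two]; linarith [hω i]) (by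
        rw [norm_smul, norm_neg, Real.norm_of_nonneg zero_le_two]; linarith [hω j])
      rw [← smul_sub, norm_smul, norm_neg, Real.norm_of_nonneg zero_le_two] at h1
      have h2 := hsep i j hij
      have h3 : δ = σ / N / 4 := by rw [hδ]; field_simp
      show δ ≤ ‖dir (-(2:ℝ) • ω i) - dir (-(2:ℝ) • ω j)‖
      rw [h3]
      linarith) (by
      intro i _
      obtain ⟨k, t, h1, h2⟩ := hnear i
      refine ⟨k, t, hmono (s := S) (by rw [hS']; linarith) ?_ (hscale _ _ _ S K h1 h2)⟩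
      rw [hK']
      gcongr
      linarith) (by
      intro i _ z hz
      have hz' : φ.symm ((N ^ 2) • z) ∈ box N (nor (ω i)) (f i) (a i) := hz
      have e1 : z = c • φ (φ.symm ((N ^ 2) • z)) := by
        rw [φ.apply_symm_apply, smul_smul, hcN, one_smul]
      have h1 := hscale (φ.symm ((N ^ 2) • z)) (a i) (nor (ω i)) (1 / 2) (d / 2) (by
        rw [real_inner_comm]
        have := hz'.1
        linarith) (by
        have := box_perp hN1 (hf i) hz'
        rw [real_inner_comm]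
        linarith)
      rw [← e1] at h1
      refine hmono (by rw [hS']; linarith) ?_ h1
      rw [hK']
      gcongr
      linarith)
  -- change of variables
  have e1 : ∫⁻ y, Fb N ω f a y ^ q = ∫⁻ z : E (d + 1), Fb N ω f a (φ.symm z) ^ q :=
    (φ.symm.measurePreserving.lintegral_comp
      (f := fun y => Fb N ω f a y ^ q) ((Fb_measurable N ω f a).pow_const q)).symm
  have e2 := lint_smul (volume : Measure (E (d + 1))) (r := N ^ 2) (by positivity)
    (fun z => Fb N ω f a (φ.symm z) ^ q)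
  rw [finrank_euclideanSpace_fin, abs_of_pos (by positivity)] at e2
  have e3 : ∫⁻ z : E (d + 1), Fb N ω f a (φ.symm z) ^ q
      = ENNReal.ofReal ((N ^ 2) ^ (d + 1)) * ∫⁻ z, Fs Finset.univ U z ^ q := by
    have e4 : ∀ z, Fb N ω f a (φ.symm ((N ^ 2) • z)) = Fs Finset.univ U z := by
      intro z
      unfold Fb Fs
      refine Finset.sum_congr rfl fun i _ => ?_
      by_cases hz : φ.symm ((N ^ 2) • z) ∈ box N (nor (ω i)) (f i) (a i)
      · rw [indicator_of_mem hz, indicator_of_mem (s := U i) hz]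
      · rw [indicator_of_notMem hz, indicator_of_notMem (s := U i) hz]
    simp_rw [e4] at e2
    rw [e2, ← mul_assoc, ← ENNReal.ofReal_mul (by positivity), mul_inv_cancel₀ (by positivity),
      ENNReal.ofReal_one, one_mul]
  rw [e1, e3]
  have h5 : ∫⁻ z, Fs Finset.univ U z ^ q
      ≤ C ^ q * ENNReal.ofReal (δ ^ d * (Fintype.card ι : ℝ) ^ (q - 1 / d)) := by
    have h6 := ENNReal.rpow_le_rpow key hq0.le
    rw [← ENNReal.rpow_mul, one_div_mul_cancel hq0.ne', ENNReal.rpow_one,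
      ENNReal.mul_rpow_of_nonneg _ _ hq0.le, ← ENNReal.rpow_mul, one_div_mul_cancel hq0.ne',
      ENNReal.rpow_one, Finset.card_univ] at h6
    exact h6
  have hcard : (0:ℝ) ≤ (Fintype.card ι : ℝ) ^ (q - 1 / d) := by positivity
  calc ENNReal.ofReal ((N ^ 2) ^ (d + 1)) * ∫⁻ z, Fs Finset.univ U z ^ q
      ≤ ENNReal.ofReal ((N ^ 2) ^ (d + 1)) *
        (C ^ q * ENNReal.ofReal (δ ^ d * (Fintype.card ι : ℝ) ^ (q - 1 / d))) := by gcongr
    _ = ENNReal.ofReal ((N ^ 2) ^ (d + 1)) * (ENNReal.ofReal (C ^ q).toReal *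
        ENNReal.ofReal (δ ^ d * (Fintype.card ι : ℝ) ^ (q - 1 / d))) := by
        rw [ENNReal.ofReal_toReal hCq]
    _ = ENNReal.ofReal ((N ^ 2) ^ (d + 1) * ((C ^ q).toReal *
        (δ ^ d * (Fintype.card ι : ℝ) ^ (q - 1 / d)))) := by
        rw [← ENNReal.ofReal_mul ENNReal.toReal_nonneg, ← ENNReal.ofReal_mul (by positivity)]
    _ ≤ _ := by
        apply ENNReal.ofReal_le_ofReal
        have e5 : (N ^ 2) ^ (d + 1) * δ ^ d = (σ / 4) ^ d * N ^ (d + 2) := by
          rw [hδ, div_pow, div_pow, mul_pow, ← pow_mul]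
          have : 2 * (d + 1) = d + (d + 2) := by ring
          rw [this, pow_add N d (d + 2)]
          field_simp
        calc (N ^ 2) ^ (d + 1) * ((C ^ q).toReal * (δ ^ d * (Fintype.card ι : ℝ) ^ (q - 1 / d)))
            = (C ^ q).toReal * ((N ^ 2) ^ (d + 1) * δ ^ d) * (Fintype.card ι : ℝ) ^ (q - 1 / d) := by
              ring
          _ = (C ^ q).toReal * (σ / 4) ^ d * N ^ (d + 2) * (Fintype.card ι : ℝ) ^ (q - 1 / d) := by
              rw [e5]; ring
          _ ≤ _ := by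
              gcongr
              linarith

end Run7.h534.Cv
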