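import Pool.Agent.Run7.h534.Cv.Scale

set_option autoImplicit false

/-!
The estimate of the pieces at one distance from the curve, in `L^q` with `q < 2`, without loss.
-/

open MeasureTheory Set Filter Topology ENNReal NNReal Metric

namespace Run7.h534.Cv

open Pool.Agent.H742R2.Kk Pool.Agent.W767.Kc

/-- The dyadic class of a distance. -/
noncomputable def kap (θ a : ℝ) : ℕ := sInf {k : ℕ | a ≤ 2 ^ k * θ}

theorem kap_spec {θ : ℝ} (hθ : 0 < θ) (a : ℝ) : a ≤ 2 ^ (kap θ a) * θ := by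
  have h : ({k : ℕ | a ≤ 2 ^ k * θ}).Nonempty := by
    obtain ⟨n, hn⟩ := pow_unbounded_of_one_lt (a / θ) one_lt_two
    exact ⟨n, by rw [div_lt_iff₀ hθ] at hn; exact hn.le⟩
  exact Nat.sInf_mem h

theorem kap_succ {θ a : ℝ} {k : ℕ} (h : kap θ a = k + 1) : 2 ^ k * θ < a := by
  have := Nat.notMem_of_lt_sInf (s := {k : ℕ | a ≤ 2 ^ k * θ}) (m := k) (by unfold kap at h; omega)
  simpa using this

theorem rpow_sum_le {ι : Type*} (s : Finset ι) (f : ι → ℝ≥0∞) {x : ℝ} (hx0 : 0 < x) (hx1 : x ≤ 1) :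
    (∑ i ∈ s, f i) ^ x ≤ ∑ i ∈ s, f i ^ x := by
  classical
  induction s using Finset.induction_on with
  | empty => simp [ENNReal.zero_rpow_of_pos hx0]
  | insert a s ha ih =>
    rw [Finset.sum_insert ha, Finset.sum_insert ha]
    exact (ENNReal.rpow_add_le_add_rpow _ _ hx0.le hx1).trans (by gcongr)

theorem sum_rpow_le {ι : Type*} (s : Finset ι) (f : ι → ℝ≥0∞) {x : ℝ} (hx0 : 0 < x) (hx1 : x ≤ 1) :
    ∑ i ∈ s, f i ^ x ≤ (s.card : ℝ≥0∞) ^ (1 - x) * (∑ i ∈ s, f i) ^ x := by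
  have h := ENNReal.inner_le_weight_mul_Lp_of_nonneg s (p := x⁻¹) (by
    rw [one_le_inv₀ hx0]; exact hx1) (fun _ => (1:ℝ≥0∞)) (fun i => f i ^ x)
  simp only [one_mul, inv_inv, Finset.sum_const, nsmul_eq_mul, mul_one] at h
  refine h.trans (le_of_eq ?_)
  congr 2
  refine Finset.sum_congr rfl fun i _ => ?_
  rw [← ENNReal.rpow_mul, mul_inv_cancel₀ hx0.ne', ENNReal.rpow_one]

theorem setLIntegral_rpow_le {n : ℕ} (S : Set (E n)) {G : E n → ℝ≥0∞} (hG : Measurable G) {x : ℝ}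
    (hx0 : 0 < x) (hx1 : x ≤ 1) :
    ∫⁻ y in S, G y ^ x ≤ volume S ^ (1 - x) * (∫⁻ y in S, G y) ^ x := by
  have h := ENNReal.lintegral_mul_norm_pow_le (μ := volume.restrict S)
    (f := fun _ => (1:ℝ≥0∞)) (g := G) aemeasurable_const hG.aemeasurable (p := 1 - x) (q := x)
    (by linarith) hx0.le (by ring)
  simp only [ENNReal.one_rpow, one_mul, lintegral_one, Measure.restrict_apply_univ] at h
  exact h

/-- **The decomposition into classes.** -/
theorem decomp {n : ℕ} {x : ℝ} (hx0 : 0 < x) (hx1 : x ≤ 1) {ι : Type*} (I : Finset ι)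
    {S : ι → Set (E n)} (hS : ∀ i, MeasurableSet (S i)) {V0 : ℝ≥0∞}
    (hV : ∀ i ∈ I, volume (S i) ≤ V0) (c : ι → ι → ℕ) (K : ℕ)
    (hK : ∀ i ∈ I, ∀ j ∈ I, c i j < K) :
    ∫⁻ y, Fs I S y ^ (1 + x) ≤ ∑ k ∈ Finset.range K, (V0 * I.card) ^ (1 - x) *
      (∑ i ∈ I, ∑ j ∈ I with c i j = k, volume (S i ∩ S j)) ^ x := by
  classical
  have hFm : Measurable (Fs I S) := measurable_Fs I hS
  set G : ι → ℕ → E n → ℝ≥0∞ := fun i k => Fs (I.filter (fun j => c i j = k)) S with hG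
  have hGm : ∀ i k, Measurable (G i k) := fun i k => measurable_Fs _ hS
  have h1 : ∫⁻ y, Fs I S y ^ (1 + x) = ∑ i ∈ I, ∫⁻ y in S i, Fs I S y ^ x := by
    rw [← lintegral_Fs_mul I hS (hFm.pow_const x)]
    apply lintegral_congr
    intro y
    rw [ENNReal.rpow_add_of_nonneg _ _ zero_le_one hx0.le, ENNReal.rpow_one]
  have h2 : ∀ i ∈ I, ∀ y, Fs I S y ^ x ≤ ∑ k ∈ Finset.range K, G i k y ^ x := by
    intro i hi y
    have e : Fs I S y = ∑ k ∈ Finset.range K, G i k y := by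
      unfold Fs
      simp only [hG, Fs]
      exact (Finset.sum_fiberwise_of_maps_to (fun j hj => Finset.mem_range.2 (hK i hi j hj)) _).symm
    rw [e]
    exact rpow_sum_le _ _ hx0 hx1
  have h3 : ∀ i ∈ I, ∀ k, ∫⁻ y in S i, G i k y
      = ∑ j ∈ I with c i j = k, volume (S i ∩ S j) := by
    intro i _ k
    simp only [hG, Fs]
    rw [lintegral_finsetSum _ (fun j _ => measurable_const.indicator (hS j))]
    refine Finset.sum_congr rfl fun j _ => ?_
    rw [lintegral_indicator (hS j), setLIntegral_const, one_mul, Measure.restrict_apply (hS j),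
      inter_comm]
  rw [h1]
  calc ∑ i ∈ I, ∫⁻ y in S i, Fs I S y ^ x
      ≤ ∑ i ∈ I, ∑ k ∈ Finset.range K, V0 ^ (1 - x) *
          (∑ j ∈ I with c i j = k, volume (S i ∩ S j)) ^ x := by
        apply Finset.sum_le_sum
        intro i hi
        calc ∫⁻ y in S i, Fs I S y ^ x ≤ ∫⁻ y in S i, ∑ k ∈ Finset.range K, G i k y ^ x :=
              lintegral_mono (h2 i hi)
          _ = ∑ k ∈ Finset.range K, ∫⁻ y in S i, G i k y ^ x :=
              lintegral_finsetSum _ (fun k _ => (hGm i k).pow_const x)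
          _ ≤ _ := by
              apply Finset.sum_le_sum
              intro k _
              refine (setLIntegral_rpow_le (S i) (hGm i k) hx0 hx1).trans ?_
              rw [h3 i hi k]
              have := hV i hi
              gcongr
    _ = ∑ k ∈ Finset.range K, V0 ^ (1 - x) * ∑ i ∈ I,
          (∑ j ∈ I with c i j = k, volume (S i ∩ S j)) ^ x := by
        rw [Finset.sum_comm]
        exact Finset.sum_congr rfl fun k _ => by rw [Finset.mul_sum]
    _ ≤ _ := by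
        apply Finset.sum_le_sum
        intro k _
        rw [ENNReal.mul_rpow_of_nonneg _ _ (by linarith), mul_assoc]
        gcongr
        exact sum_rpow_le _ _ hx0 hx1

/-- The interpolation of two bounds. -/
theorem rpow_interp {Q A B : ℝ≥0∞} (hA : Q ≤ A) (hB : Q ≤ B) {x t : ℝ} (hx : 0 ≤ x) (ht0 : 0 ≤ t)
    (ht1 : t ≤ 1) : Q ^ x ≤ A ^ ((1 - t) * x) * B ^ (t * x) := by
  have h1 : 0 ≤ (1 - t) * x := mul_nonneg (by linarith) hx
  have h2 : 0 ≤ t * x := mul_nonneg ht0 hx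
  have e : x = (1 - t) * x + t * x := by ring
  conv_lhs => rw [e, ENNReal.rpow_add_of_nonneg _ _ h1 h2]
  gcongr

/-- The identity of the powers. -/
theorem rpow_combo (d : ℕ) {s ρ M x t : ℝ} (hs : 0 < s) (hρ : 0 < ρ) (hM : 0 < M) :
    (s ^ d * ρ * M) ^ (1 - x) * ((s ^ d * (ρ / ρ ^ d) * M) ^ ((1 - t) * x)
      * (s ^ d * ρ * M ^ 2) ^ (t * x))
      = s ^ d * ρ ^ (1 - d * x * (1 - t)) * M ^ (1 + t * x) := by
  have key : ∀ y : ℝ, 0 < y → y = Real.exp (Real.log y) := fun y hy => (Real.exp_log hy).symm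
  set a := Real.log s with ha
  set b := Real.log ρ with hb
  set m := Real.log M with hm
  have es : s = Real.exp a := key s hs
  have eρ : ρ = Real.exp b := key ρ hρ
  have eM : M = Real.exp m := key M hM
  have e1 : s ^ d * ρ * M = Real.exp (d * a + b + m) := by
    rw [Real.exp_add, Real.exp_add, Real.exp_nat_mul, ← es, ← eρ, ← eM]
  have e2 : s ^ d * (ρ / ρ ^ d) * M = Real.exp (d * a + (b - d * b) + m) := by
    rw [Real.exp_add, Real.exp_add, Real.exp_sub, Real.exp_nat_mul, Real.exp_nat_mul, ← es, ← eρ,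
      ← eM]
  have e3 : s ^ d * ρ * M ^ 2 = Real.exp (d * a + b + (2:ℕ) * m) := by
    rw [Real.exp_add, Real.exp_add, Real.exp_nat_mul, Real.exp_nat_mul, ← es, ← eρ, ← eM]
  have e4 : s ^ d = Real.exp (d * a) := by rw [Real.exp_nat_mul, ← es]
  rw [e1, e2, e3, e4]
  conv_rhs => rw [eρ, eM]
  simp only [← Real.exp_mul, ← Real.exp_add]
  congr 1
  push_cast
  ring

/-- The summability of the constants. -/
theorem summable_const (J : ℕ) {z : ℝ} (hz0 : 0 ≤ z) (hz1 : z < 1) :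
    Summable (fun k : ℕ => ((k : ℝ) + J + 1) ^ 2 * z ^ k) := by
  have hz : ‖z‖ < 1 := by rw [Real.norm_of_nonneg hz0]; exact hz1
  have h0 := summable_pow_mul_geometric_of_norm_lt_one (R := ℝ) 0 hz
  have h1 := summable_pow_mul_geometric_of_norm_lt_one (R := ℝ) 1 hz
  have h2 := summable_pow_mul_geometric_of_norm_lt_one (R := ℝ) 2 hz
  have h := (h2.add (h1.mul_left (2 * ((J:ℝ) + 1)))).add (h0.mul_left (((J:ℝ) + 1) ^ 2))
  refine h.congr fun k => ?_
  ring

/-- **The estimate of one scale.** -/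
theorem one_scale {d : ℕ} (hd : 1 ≤ d) (N : ℕ) {B : ℝ} (hB : 0 < B) {x t : ℝ} (hx0 : 0 < x)
    (hx1 : x ≤ 1) (ht0 : 0 < t) (ht1 : t ≤ 1) :
    ∃ C : ℝ≥0∞, C ≠ ∞ ∧ ∀ γ : ℝ → E (d + 1), Continuous γ → OrderLE N γ →
      ∀ σ ρ : ℝ, 0 < σ → ρ ≠ 0 → |ρ| ≤ B → ∀ (ι : Type) (I : Finset ι) (τ : ι → ℝ) (v : ι → E d),
      (∀ i ∈ I, ∀ j ∈ I, i ≠ j → σ ≤ ‖v i - v j‖) → I.Nonempty →
      ∫⁻ y, Fs I (fun i => Pc (γ (τ i)) (v i) ρ (B * σ)) y ^ (1 + x)
        ≤ C * ENNReal.ofReal (σ ^ d * |ρ| ^ (1 - d * x * (1 - t)) * (I.card : ℝ) ^ (1 + t * x)) := by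
  classical
  have hd1 : (1:ℝ) ≤ d := by exact_mod_cast hd
  obtain ⟨J, hJ⟩ := pow_unbounded_of_one_lt (1 + 4 * ((d:ℝ) + 1) * N) one_lt_two
  set cV : ℝ≥0∞ := ENNReal.ofReal (B ^ d) * vB d 1 with hcV
  set c0 : ℝ≥0∞ := 3 ^ d * (cU d * (N + 1)) * ENNReal.ofReal (B ^ (2 * d)) with hc0
  set c1 : ℕ → ℝ≥0∞ := fun k => c0 * ENNReal.ofReal (((k:ℝ) + J + 1) ^ 2) with hc1
  set c2 : ℝ≥0∞ := ENNReal.ofReal (3 * d / 2) * (ENNReal.ofReal (B ^ d) * vB d 1) with hc2
  have hcVt : cV ≠ ∞ := ENNReal.mul_ne_top ENNReal.ofReal_ne_top (vB_ne_top _ _)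
  have hc0t : c0 ≠ ∞ := ENNReal.mul_ne_top (ENNReal.mul_ne_top (ENNReal.pow_ne_top (by simp))
    (ENNReal.mul_ne_top (cU_ne_top d) (by simp))) ENNReal.ofReal_ne_top
  have hc2t : c2 ≠ ∞ := ENNReal.mul_ne_top ENNReal.ofReal_ne_top hcVt
  have hx' : 0 ≤ 1 - x := by linarith
  have htx : 0 < t * x := mul_pos ht0 hx0
  have htx' : 0 ≤ (1 - t) * x := mul_nonneg (by linarith) hx0.le
  set D : ℕ → ℝ≥0∞ := fun k => cV ^ (1 - x) * ((c1 k) ^ ((1 - t) * x) *
    (c2 * ENNReal.ofReal ((1 / 2) ^ k)) ^ (t * x)) with hD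
  refine ⟨∑' k, D k, ?_, ?_⟩
  · -- finiteness
    have hz0 : (0:ℝ) ≤ (1 / 2 : ℝ) ^ (t * x) := by positivity
    have hz1 : (1 / 2 : ℝ) ^ (t * x) < 1 := Real.rpow_lt_one (by norm_num) (by norm_num) htx
    have hle : ∀ k, D k ≤ (cV ^ (1 - x) * (c0 ^ ((1 - t) * x) * c2 ^ (t * x))) *
        ENNReal.ofReal (((k:ℝ) + J + 1) ^ 2 * ((1 / 2 : ℝ) ^ (t * x)) ^ k) := by
      intro k
      simp only [hD, hc1]
      have hbase : (1:ℝ) ≤ ((k:ℝ) + J + 1) ^ 2 := by
        have : (1:ℝ) ≤ (k:ℝ) + J + 1 := by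
          have : (0:ℝ) ≤ k := Nat.cast_nonneg _
          have : (0:ℝ) ≤ J := Nat.cast_nonneg _
          linarith
        nlinarith
      have e1 : (c0 * ENNReal.ofReal (((k:ℝ) + J + 1) ^ 2)) ^ ((1 - t) * x)
          ≤ c0 ^ ((1 - t) * x) * ENNReal.ofReal (((k:ℝ) + J + 1) ^ 2) := by
        rw [ENNReal.mul_rpow_of_nonneg _ _ htx']
        gcongr
        have h1 : (1 : ℝ≥0∞) ≤ ENNReal.ofReal (((k:ℝ) + J + 1) ^ 2) := by
          rw [← ENNReal.ofReal_one]; exact ENNReal.ofReal_le_ofReal hbase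
        calc ENNReal.ofReal (((k:ℝ) + J + 1) ^ 2) ^ ((1 - t) * x)
            ≤ ENNReal.ofReal (((k:ℝ) + J + 1) ^ 2) ^ (1:ℝ) :=
              ENNReal.rpow_le_rpow_of_exponent_le h1 (by nlinarith)
          _ = _ := ENNReal.rpow_one _
      have e2 : (c2 * ENNReal.ofReal ((1 / 2) ^ k)) ^ (t * x)
          = c2 ^ (t * x) * ENNReal.ofReal (((1 / 2 : ℝ) ^ (t * x)) ^ k) := by
        rw [ENNReal.mul_rpow_of_nonneg _ _ htx.le, ENNReal.ofReal_rpow_of_nonneg (by positivity)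
          htx.le]
        congr 2
        rw [← Real.rpow_natCast, ← Real.rpow_natCast, ← Real.rpow_mul (by norm_num),
          ← Real.rpow_mul (by norm_num), mul_comm (k:ℝ)]
      rw [e2]
      calc cV ^ (1 - x) * ((c0 * ENNReal.ofReal (((k:ℝ) + J + 1) ^ 2)) ^ ((1 - t) * x) *
            (c2 ^ (t * x) * ENNReal.ofReal (((1 / 2 : ℝ) ^ (t * x)) ^ k)))
          ≤ cV ^ (1 - x) * ((c0 ^ ((1 - t) * x) * ENNReal.ofReal (((k:ℝ) + J + 1) ^ 2)) *
            (c2 ^ (t * x) * ENNReal.ofReal (((1 / 2 : ℝ) ^ (t * x)) ^ k))) := by gcongr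
        _ = _ := by
            rw [ENNReal.ofReal_mul (by positivity)]
            ring
    refine ne_top_of_le_ne_top ?_ (ENNReal.tsum_le_tsum hle)
    rw [ENNReal.tsum_mul_left]
    refine ENNReal.mul_ne_top ?_ (summable_const J hz0 hz1).tsum_ofReal_ne_top
    exact ENNReal.mul_ne_top (ENNReal.rpow_ne_top_of_nonneg hx' hcVt) (ENNReal.mul_ne_top
      (ENNReal.rpow_ne_top_of_nonneg htx' hc0t) (ENNReal.rpow_ne_top_of_nonneg htx.le hc2t))
  intro γ hγ hN σ ρ hσ hρ hρB ι I τ v hsep hI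
  have hρ0 : 0 < |ρ| := abs_pos.2 hρ
  have hM : (0:ℝ) < I.card := by exact_mod_cast Finset.card_pos.2 hI
  set r := B * σ with hr
  have hr0 : 0 < r := by positivity
  set θ := 16 * r / (3 * d * |ρ|) with hθ
  have hθ0 : 0 < θ := by positivity
  have hθ2 : 3 * d * θ * |ρ| = 16 * r := by rw [hθ]; field_simp
  set S : ι → Set (E (d + 1)) := fun i => Pc (γ (τ i)) (v i) ρ r with hS
  have hSm : ∀ i, MeasurableSet (S i) := fun i => measurableSet_Pc _ _ _ _
  set c : ι → ι → ℕ := fun i j => kap θ ‖v i - v j‖ with hc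
  set K := I.sup (fun i => I.sup (fun j => c i j)) + 1 with hK
  have hcK : ∀ i ∈ I, ∀ j ∈ I, c i j < K := by
    intro i hi j hj
    have h1 : c i j ≤ I.sup (fun j => c i j) := Finset.le_sup (f := fun j => c i j) hj
    have h2 : I.sup (fun j => c i j) ≤ I.sup (fun i => I.sup (fun j => c i j)) :=
      Finset.le_sup (f := fun i => I.sup (fun j => c i j)) hi
    omega
  have hV : ∀ i ∈ I, volume (S i) ≤ ENNReal.ofReal |ρ| * vB d r :=
    fun i _ => volume_Pc_le _ _ hρ r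
  have hdec := decomp hx0 hx1 I hSm hV c K hcK
  refine hdec.trans ?_
  set W := σ ^ d * |ρ| * (I.card : ℝ) with hW
  set P := σ ^ d * (|ρ| / |ρ| ^ d) * (I.card : ℝ) with hP
  set R := σ ^ d * |ρ| * (I.card : ℝ) ^ 2 with hR
  have hW0 : 0 ≤ W := by positivity
  have hP0 : 0 ≤ P := by positivity
  have hR0 : 0 ≤ R := by positivity
  have hcard : (I.card : ℝ≥0∞) = ENNReal.ofReal (I.card : ℝ) := by simp
  have hvB : vB d r = ENNReal.ofReal (B ^ d) * vB d 1 * ENNReal.ofReal (σ ^ d) := by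
    rw [vB_eq d hr0.le, hr, mul_pow, ENNReal.ofReal_mul (by positivity)]
    ring
  have hV0 : ENNReal.ofReal |ρ| * vB d r * I.card = cV * ENNReal.ofReal W := by
    rw [hvB, hW, ENNReal.ofReal_mul (by positivity), ENNReal.ofReal_mul (by positivity), hcard, hcV]
    ring
  -- the first bound
  have hb1 : ∀ k, ∑ i ∈ I, ∑ j ∈ I with c i j = k, volume (S i ∩ S j)
      ≤ c1 k * ENNReal.ofReal P := by
    intro k
    have h2k : (0:ℝ) < 2 ^ k := by positivity
    have h1 := near_pairs hd hγ hN (r := r) (σ := σ) (ρ := ρ) (θ := 2 ^ k * θ) hρ (by positivity)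
      hσ (by rw [hr, mul_comm]; gcongr) (by
        have : 3 * d * (2 ^ k * θ) * |ρ| = 2 ^ k * (3 * d * θ * |ρ|) := by ring
        rw [this, hθ2]
        have : (1:ℝ) ≤ 2 ^ k := one_le_pow₀ (by norm_num)
        nlinarith) (J := k + J) (by
        have e : (d + 1) * N * (3 * d * (2 ^ k * θ) * |ρ|) / (4 * r)
            = 4 * ((d:ℝ) + 1) * N * 2 ^ k := by
          have : 3 * d * (2 ^ k * θ) * |ρ| = 2 ^ k * (3 * d * θ * |ρ|) := by ring
          rw [this, hθ2]
          field_simp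
          ring
        rw [e, pow_add]
        have : (1:ℝ) ≤ 2 ^ k := one_le_pow₀ (by norm_num)
        nlinarith) I τ v hsep
    calc ∑ i ∈ I, ∑ j ∈ I with c i j = k, volume (S i ∩ S j)
        ≤ ∑ i ∈ I, ∑ j ∈ I with ‖v i - v j‖ ≤ 2 ^ k * θ, volume (S i ∩ S j) := by
          apply Finset.sum_le_sum
          intro i _
          apply Finset.sum_le_sum_of_subset
          intro j hj
          obtain ⟨hj1, hj2⟩ := Finset.mem_filter.1 hj
          refine Finset.mem_filter.2 ⟨hj1, ?_⟩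
          have := kap_spec hθ0 ‖v i - v j‖
          rw [← hj2]
          exact this
      _ ≤ _ := h1
      _ = _ := by
          rw [bd, hc1, hc0]
          have e : |ρ| * (r ^ (2 * d) / (σ * |ρ|) ^ d) = B ^ (2 * d) * (σ ^ d * (|ρ| / |ρ| ^ d)) := by
            rw [hr, mul_pow B σ, mul_pow σ |ρ|, pow_mul' σ 2 d, sq]
            field_simp
          have e2 : (((k + J : ℕ) : ℝ≥0∞) + 1) ^ 2 = ENNReal.ofReal (((k:ℝ) + J + 1) ^ 2) := by
            have : ((k:ℝ) + J + 1) ^ 2 = (((k + J + 1) ^ 2 : ℕ) : ℝ) := by push_cast; ring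
            rw [this, ENNReal.ofReal_natCast]
            push_cast
            ring
          rw [e, e2, hP, ENNReal.ofReal_mul (by positivity : (0:ℝ) ≤ B ^ (2 * d)),
            ENNReal.ofReal_mul (by positivity : (0:ℝ) ≤ σ ^ d * (|ρ| / |ρ| ^ d)), hcard]
          ring
  -- the second bound
  have hb2 : ∀ k, ∑ i ∈ I, ∑ j ∈ I with c i j = k, volume (S i ∩ S j)
      ≤ c2 * ENNReal.ofReal ((1 / 2) ^ k) * ENNReal.ofReal R := by
    intro k
    have h1 : ∀ i j, c i j = k → volume (S i ∩ S j)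
        ≤ ENNReal.ofReal (3 * d / 2 * |ρ| * (1 / 2) ^ k) * vB d r := by
      intro i j hij
      rcases k with _ | k
      · refine (measure_mono inter_subset_left).trans ((volume_Pc_le _ _ hρ r).trans ?_)
        gcongr
        rw [pow_zero, mul_one]
        nlinarith
      · have h2 := kap_succ hij
        have hne : v i ≠ v j := by
          intro h
          rw [h, sub_self, norm_zero] at h2
          have : (0:ℝ) < 2 ^ k * θ := by positivity
          linarith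
        refine (volume_inter_le (γ (τ i)) (γ (τ j)) hne (hSm i) (hSm j) (fun y hy => hy.2.2)
          (fun y hy => hy.2.2)).trans ?_
        gcongr
        have hpos : (0:ℝ) < 2 ^ k * θ := by positivity
        calc 4 * r / ‖v i - v j‖ ≤ 4 * r / (2 ^ k * θ) := by gcongr
          _ = _ := by
              rw [hθ]
              rw [pow_succ (1 / 2 : ℝ) k, one_div_pow]
              field_simp
              ring
    calc ∑ i ∈ I, ∑ j ∈ I with c i j = k, volume (S i ∩ S j)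
        ≤ ∑ i ∈ I, ∑ j ∈ I, ENNReal.ofReal (3 * d / 2 * |ρ| * (1 / 2) ^ k) * vB d r := by
          apply Finset.sum_le_sum
          intro i _
          refine (Finset.sum_le_sum fun j hj => h1 i j (Finset.mem_filter.1 hj).2).trans ?_
          exact Finset.sum_le_sum_of_subset (Finset.filter_subset _ _)
      _ = _ := by
          rw [Finset.sum_const, Finset.sum_const, nsmul_eq_mul, nsmul_eq_mul, hvB, hc2, hR, hcard,
            ENNReal.ofReal_mul (by positivity : (0:ℝ) ≤ 3 * d / 2 * |ρ|),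
            ENNReal.ofReal_mul (by positivity : (0:ℝ) ≤ 3 * d / 2),
            ENNReal.ofReal_mul (by positivity : (0:ℝ) ≤ σ ^ d * |ρ|),
            ENNReal.ofReal_mul (by positivity : (0:ℝ) ≤ σ ^ d),
            ENNReal.ofReal_pow (Nat.cast_nonneg _) 2]
          ring
  -- the sum
  have hk : ∀ k, (ENNReal.ofReal |ρ| * vB d r * I.card) ^ (1 - x) *
      (∑ i ∈ I, ∑ j ∈ I with c i j = k, volume (S i ∩ S j)) ^ x
      ≤ D k * ENNReal.ofReal (σ ^ d * |ρ| ^ (1 - d * x * (1 - t)) * (I.card : ℝ) ^ (1 + t * x)) := by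
    intro k
    have h1 := rpow_interp (hb1 k) (hb2 k) hx0.le ht0.le ht1
    rw [hV0]
    calc (cV * ENNReal.ofReal W) ^ (1 - x) *
        (∑ i ∈ I, ∑ j ∈ I with c i j = k, volume (S i ∩ S j)) ^ x
        ≤ (cV * ENNReal.ofReal W) ^ (1 - x) * ((c1 k * ENNReal.ofReal P) ^ ((1 - t) * x) *
          (c2 * ENNReal.ofReal ((1 / 2) ^ k) * ENNReal.ofReal R) ^ (t * x)) := by gcongr
      _ = D k * (ENNReal.ofReal W ^ (1 - x) * (ENNReal.ofReal P ^ ((1 - t) * x) *
          ENNReal.ofReal R ^ (t * x))) := by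
          rw [ENNReal.mul_rpow_of_nonneg _ _ hx', ENNReal.mul_rpow_of_nonneg _ _ htx',
            ENNReal.mul_rpow_of_nonneg _ _ htx.le, hD]
          ring
      _ = _ := by
          rw [ENNReal.ofReal_rpow_of_nonneg hW0 hx', ENNReal.ofReal_rpow_of_nonneg hP0 htx',
            ENNReal.ofReal_rpow_of_nonneg hR0 htx.le, ← ENNReal.ofReal_mul (by positivity),
            ← ENNReal.ofReal_mul (by positivity), hW, hP, hR, rpow_combo d hσ hρ0 hM]
  calc ∑ k ∈ Finset.range K, (ENNReal.ofReal |ρ| * vB d r * I.card) ^ (1 - x) *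
      (∑ i ∈ I, ∑ j ∈ I with c i j = k, volume (S i ∩ S j)) ^ x
      ≤ ∑ k ∈ Finset.range K, D k *
        ENNReal.ofReal (σ ^ d * |ρ| ^ (1 - d * x * (1 - t)) * (I.card : ℝ) ^ (1 + t * x)) :=
        Finset.sum_le_sum fun k _ => hk k
    _ ≤ _ := by
        rw [← Finset.sum_mul]
        gcongr
        exact ENNReal.sum_le_tsum _

end Run7.h534.Cv
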