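import Pool.Agent.Run7.h534.Cv.Unit

set_option autoImplicit false

/-!
The `L²` estimate at all scales and for all balls of slopes, and estimates of the intersections of
two pieces.
-/

open MeasureTheory Set Filter Topology ENNReal NNReal Metric

namespace Run7.h534.Cv

open Pool.Agent.H742R2.Kk Pool.Agent.W767.Kc

/-- The change of coordinates that takes lines of slope `v` to lines of slope `(ρ/l) (v - v0)`. -/
noncomputable def Phm {d : ℕ} (v0 : E d) (ρ l : ℝ) (x : E (d + 1)) : E (d + 1) :=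
  ins (x 0 / ρ) (l⁻¹ • (tl x - x 0 • v0))

/-- The inverse of `Phm`. -/
noncomputable def Psm {d : ℕ} (v0 : E d) (ρ l : ℝ) (z : E (d + 1)) : E (d + 1) :=
  ins (ρ * z 0) ((ρ * z 0) • v0 + l • tl z)

theorem measurable_Psm {d : ℕ} (v0 : E d) (ρ l : ℝ) : Measurable (Psm v0 ρ l) := by
  unfold Psm
  have h0 : Measurable (fun z : E (d + 1) => ρ * z 0) := (measurable_apply 0).const_mul ρ
  exact measurable_ins.comp (h0.prodMk ((h0.smul_const v0).add (measurable_tl.const_smul l)))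

theorem continuous_Phm {d : ℕ} (v0 : E d) (ρ l : ℝ) : Continuous (Phm v0 ρ l) := by
  unfold Phm ins tl
  fun_prop

theorem lintegral_Psm {d : ℕ} (v0 : E d) {ρ l : ℝ} (hρ : ρ ≠ 0) (hl : 0 < l)
    {G : E (d + 1) → ℝ≥0∞} (hG : Measurable G) :
    ∫⁻ z, G (Psm v0 ρ l z) = ENNReal.ofReal ((|ρ| * l ^ d)⁻¹) * ∫⁻ x, G x := by
  rw [lintegral_ins (f := fun z => G (Psm v0 ρ l z)) (hG.comp (measurable_Psm v0 ρ l)),
    lintegral_ins hG]
  have h1 : ∀ s : ℝ, ∫⁻ w : E d, G (Psm v0 ρ l (ins s w))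
      = ENNReal.ofReal ((l ^ d)⁻¹) * ∫⁻ w : E d, G (ins (ρ * s) w) := by
    intro s
    have hm : Measurable (fun w : E d => G (ins (ρ * s) w)) :=
      hG.comp (measurable_ins.comp (measurable_const.prodMk measurable_id))
    have e1 : ∀ w : E d, G (Psm v0 ρ l (ins s w))
        = (fun w : E d => G (ins (ρ * s) ((ρ * s) • v0 + w))) (l • w) := by
      intro w
      simp only [Psm, ins_zero, tl_ins]
    simp_rw [e1]
    have hm2 : Measurable (fun w : E d => G (ins (ρ * s) ((ρ * s) • v0 + w))) :=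
      hm.comp (measurable_const_add _)
    rw [lintegral_comp_smulV hm2 hl.ne', lintegral_add_left_eq_self (μ := volume)
      (fun w : E d => G (ins (ρ * s) w)) ((ρ * s) • v0)]
    congr 2
    rw [finrank_euclideanSpace_fin, abs_of_pos (by positivity)]
  simp_rw [h1]
  have hm : Measurable (fun s : ℝ => ∫⁻ w : E d, G (ins s w)) :=
    Measurable.lintegral_prod_right' (f := fun z : ℝ × E d => G (ins z.1 z.2))
      (hG.comp measurable_ins)
  rw [lintegral_const_mul' _ _ ENNReal.ofReal_ne_top, lintegral_comp_mul hm hρ, ← mul_assoc,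
    ← ENNReal.ofReal_mul (by positivity), abs_inv, ← mul_inv, mul_comm (l ^ d)]

theorem mem_Pc_Psm {d : ℕ} (v0 : E d) {ρ l : ℝ} (hρ : ρ ≠ 0) (hl : 0 < l) (q : E (d + 1))
    (v : E d) (r : ℝ) (z : E (d + 1)) :
    Psm v0 ρ l z ∈ Pc q v ρ r ↔ z ∈ Pc (Phm v0 ρ l q) ((ρ / l) • (v - v0)) 1 (r / l) := by
  have e0 : (Psm v0 ρ l z) 0 = ρ * z 0 := ins_zero _ _
  have e1 : tl (Psm v0 ρ l z) = (ρ * z 0) • v0 + l • tl z := tl_ins _ _
  have e2 : (Phm v0 ρ l q) 0 = q 0 / ρ := ins_zero _ _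
  have e3 : tl (Phm v0 ρ l q) = l⁻¹ • (tl q - q 0 • v0) := tl_ins _ _
  have e4 : ((Psm v0 ρ l z) 0 - q 0) / ρ = (z 0 - (Phm v0 ρ l q) 0) / 1 := by
    rw [e0, e2]; field_simp
  have e5 : tl (Psm v0 ρ l z) - tl q - ((Psm v0 ρ l z) 0 - q 0) • v
      = l • (tl z - tl (Phm v0 ρ l q) - (z 0 - (Phm v0 ρ l q) 0) • (ρ / l) • (v - v0)) := by
    rw [e0, e1, e2, e3, smul_sub l, smul_sub l, smul_smul l l⁻¹, mul_inv_cancel₀ hl.ne', one_smul,
      smul_smul, smul_smul]
    have e6 : l * (z 0 - q 0 / ρ) * (ρ / l) = ρ * z 0 - q 0 := by field_simp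
    rw [e6, smul_sub (ρ * z 0 - q 0) v v0, sub_smul (ρ * z 0) (q 0) v0]
    abel
  have e6 : ‖tl (Psm v0 ρ l z) - tl q - ((Psm v0 ρ l z) 0 - q 0) • v‖ ≤ r ↔
      ‖tl z - tl (Phm v0 ρ l q) - (z 0 - (Phm v0 ρ l q) 0) • (ρ / l) • (v - v0)‖ ≤ r / l := by
    rw [e5, norm_smul, Real.norm_of_nonneg hl.le, le_div_iff₀ hl, mul_comm]
  unfold Pc
  simp only [mem_ofPred_eq]
  rw [e4, e6]

theorem orderLE_Phm {d N : ℕ} {γ : ℝ → E (d + 1)} (hN : OrderLE N γ) (v0 : E d) {ρ l : ℝ}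
    (hρ : ρ ≠ 0) (hl : 0 < l) : OrderLE N (fun t => Phm v0 ρ l (γ t)) := by
  intro ν hν
  set ν' : E (d + 1) := ins (ν 0 / ρ - l⁻¹ * inner ℝ (tl ν) v0) (l⁻¹ • tl ν) with hν'
  have hne : ν' ≠ 0 := by
    intro h
    have h1 : l⁻¹ • tl ν = 0 := by
      have := congrArg tl h
      rw [hν', tl_ins] at this
      rw [this]
      ext i; simp [tl]
    have h2 : tl ν = 0 := by
      rcases smul_eq_zero.1 h1 with h3 | h3
      · exact absurd h3 (inv_ne_zero hl.ne')
      · exact h3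
    have h3 : ν 0 / ρ - l⁻¹ * inner ℝ (tl ν) v0 = 0 := by
      have := congrArg (fun x : E (d + 1) => x 0) h
      simp only [hν', ins_zero] at this
      rw [this]; simp
    rw [h2, inner_zero_left, mul_zero, sub_zero, _root_.div_eq_zero_iff] at h3
    apply hν
    rw [← ins_eta ν, h2, h3.resolve_right hρ]
    ext i
    refine Fin.cases ?_ (fun j => ?_) i
    · simp [ins_apply_zero]
    · simp [ins_apply_succ]
  have h1 := hN ν' hne
  have e : ∀ t, inner ℝ ν (Phm v0 ρ l (γ t)) = inner ℝ ν' (γ t) := by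
    intro t
    conv_lhs => rw [← ins_eta ν]
    conv_rhs => rw [← ins_eta (γ t)]
    rw [Phm, hν', inner_ins, inner_ins, inner_smul_right, inner_sub_right, inner_smul_right,
      inner_smul_left]
    simp only [conj_trivial]
    ring
  simp_rw [e]
  exact h1

/-- The bound of the `L²` estimate. -/
noncomputable def bd (d N J : ℕ) (ρ r σ : ℝ) : ℝ≥0∞ :=
  cU d * (((J:ℝ≥0∞) + 1) ^ 2 * (N + 1)) * ENNReal.ofReal (|ρ| * (r ^ (2 * d) / (σ * |ρ|) ^ d))

/-- **The `L²` estimate** for the pieces at distance `|ρ|` from the curve whose slopes are in a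
ball. -/
theorem scale_est {d N : ℕ} (hd : 1 ≤ d) {γ : ℝ → E (d + 1)} (hγ : Continuous γ)
    (hN : OrderLE N γ) {r σ ρ l : ℝ} (hρ : ρ ≠ 0) (hl : 0 < l) (hσ : 0 < σ) (h1 : σ * |ρ| ≤ r)
    (h2 : 16 * r ≤ l) {J : ℕ} (hJ : 1 + (d + 1) * N * l / (4 * r) ≤ (2:ℝ) ^ J) (v0 : E d)
    {ι : Type*} (I : Finset ι) (t : ι → ℝ) (v : ι → E d)
    (hv : ∀ i ∈ I, ‖v i - v0‖ * |ρ| ≤ l / 2)
    (hsep : ∀ i ∈ I, ∀ j ∈ I, i ≠ j → σ ≤ ‖v i - v j‖) :
    ∫⁻ x, Fs I (fun i => Pc (γ (t i)) (v i) ρ r) x ^ 2 ≤ bd d N J ρ r σ * I.card := by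
  have hρ0 : 0 < |ρ| := abs_pos.2 hρ
  have hr : 0 < r := (by positivity : 0 < σ * |ρ|).trans_le h1
  have hm : Measurable (fun x => Fs I (fun i => Pc (γ (t i)) (v i) ρ r) x ^ 2) :=
    (measurable_Fs I (fun i => measurableSet_Pc _ _ _ _)).pow_const 2
  have e1 : ∀ z, Fs I (fun i => Pc (γ (t i)) (v i) ρ r) (Psm v0 ρ l z)
      = Fs I (fun i => Pc (Phm v0 ρ l (γ (t i))) ((ρ / l) • (v i - v0)) 1 (r / l)) z := by
    intro z
    unfold Fs
    refine Finset.sum_congr rfl fun i _ => ?_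
    by_cases h : z ∈ Pc (Phm v0 ρ l (γ (t i))) ((ρ / l) • (v i - v0)) 1 (r / l)
    · rw [indicator_of_mem h, indicator_of_mem ((mem_Pc_Psm v0 hρ hl _ _ _ _).2 h)]
    · rw [indicator_of_notMem h, indicator_of_notMem]
      exact fun h' => h ((mem_Pc_Psm v0 hρ hl _ _ _ _).1 h')
  have h3 := lintegral_Psm v0 hρ hl hm
  simp_rw [e1] at h3
  have h4 := unit_est hd ((continuous_Phm v0 ρ l).comp hγ) (orderLE_Phm hN v0 hρ hl)
    (r := r / l) (σ := σ * |ρ| / l) (by positivity) (by gcongr)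
    (by rw [div_le_iff₀ hl]; linarith) (J := J) (by
      have e : (d + 1) * N / (4 * (r / l)) = (d + 1) * N * l / (4 * r) := by field_simp
      rw [e]; exact hJ) I t (fun i => (ρ / l) • (v i - v0)) (by
      intro i hi
      rw [norm_smul, norm_div, Real.norm_eq_abs, Real.norm_of_nonneg hl.le, div_mul_eq_mul_div,
        div_le_iff₀ hl]
      linarith [hv i hi]) (by
      intro i hi j hj hij
      rw [← smul_sub, sub_sub_sub_cancel_right, norm_smul, norm_div, Real.norm_eq_abs,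
        Real.norm_of_nonneg hl.le, div_mul_eq_mul_div, mul_comm |ρ|]
      have := hsep i hi j hj hij
      gcongr)
  simp only [Function.comp_apply] at h4
  rw [h3] at h4
  have h5 : ∫⁻ x, Fs I (fun i => Pc (γ (t i)) (v i) ρ r) x ^ 2
      = ENNReal.ofReal (|ρ| * l ^ d) * (ENNReal.ofReal ((|ρ| * l ^ d)⁻¹) *
        ∫⁻ x, Fs I (fun i => Pc (γ (t i)) (v i) ρ r) x ^ 2) := by
    rw [← mul_assoc, ← ENNReal.ofReal_mul (by positivity), mul_inv_cancel₀ (by positivity),
      ENNReal.ofReal_one, one_mul]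
  rw [h5]
  calc ENNReal.ofReal (|ρ| * l ^ d) * (ENNReal.ofReal ((|ρ| * l ^ d)⁻¹) *
        ∫⁻ x, Fs I (fun i => Pc (γ (t i)) (v i) ρ r) x ^ 2)
      ≤ ENNReal.ofReal (|ρ| * l ^ d) * (cU d * (((J:ℝ≥0∞) + 1) ^ 2 * (N + 1)) *
        ENNReal.ofReal ((r / l) ^ (2 * d) / (σ * |ρ| / l) ^ d) * I.card) := by gcongr
    _ = cU d * (((J:ℝ≥0∞) + 1) ^ 2 * (N + 1)) * (ENNReal.ofReal (|ρ| * l ^ d) *
        ENNReal.ofReal ((r / l) ^ (2 * d) / (σ * |ρ| / l) ^ d)) * I.card := by ring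
    _ = _ := by
        rw [bd, ← ENNReal.ofReal_mul (by positivity)]
        congr 3
        rw [div_pow, div_pow, mul_comm 2 d, pow_mul l d 2]
        field_simp

/-- The neighbours of a cell. -/
noncomputable def nb {d : ℕ} (m : Fin d → ℤ) : Finset (Fin d → ℤ) :=
  Fintype.piFinset (fun k => Finset.Icc (m k - 1) (m k + 1))

theorem card_nb {d : ℕ} (m : Fin d → ℤ) : (nb m).card = 3 ^ d := by
  unfold nb
  rw [Fintype.card_piFinset]
  simp only [Int.card_Icc]
  have : ∀ k, (m k + 1 + 1 - (m k - 1)).toNat = 3 := fun k => by omega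
  simp [this]

/-- The cell of `v`. -/
noncomputable def cell {d : ℕ} (θ : ℝ) (v : E d) : Fin d → ℤ := fun k => ⌊v k / θ⌋

theorem cell_nb {d : ℕ} {θ : ℝ} (hθ : 0 < θ) {v w : E d} (h : ‖v - w‖ ≤ θ) :
    cell θ v ∈ nb (cell θ w) := by
  unfold nb cell
  rw [Fintype.mem_piFinset]
  intro k
  have h1 : |v k - w k| ≤ θ := (abs_apply_le (v - w) k).trans h
  have h2 : |v k / θ - w k / θ| ≤ 1 := by
    rw [← _root_.sub_div, abs_div, abs_of_pos hθ, div_le_one hθ]; exact h1
  obtain ⟨h3, h4⟩ := abs_le.1 h2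
  rw [Finset.mem_Icc]
  have a1 := Int.floor_le (v k / θ)
  have a2 := Int.lt_floor_add_one (v k / θ)
  have b1 := Int.floor_le (w k / θ)
  have b2 := Int.lt_floor_add_one (w k / θ)
  constructor
  · have : ((⌊w k / θ⌋ - 1 : ℤ) : ℝ) < ((⌊v k / θ⌋ + 1 : ℤ) : ℝ) := by push_cast; linarith
    have := Int.cast_lt.1 this
    omega
  · have : ((⌊v k / θ⌋ : ℤ) : ℝ) < ((⌊w k / θ⌋ + 1 + 1 : ℤ) : ℝ) := by push_cast; linarith
    have := Int.cast_lt.1 this
    omega

theorem cell_near {d : ℕ} (hd : 1 ≤ d) {θ : ℝ} (hθ : 0 < θ) {v : E d} {m : Fin d → ℤ}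
    (h : m ∈ nb (cell θ v)) :
    ‖v - WithLp.toLp 2 (fun k => θ * ((m k : ℝ) + 1 / 2))‖ ≤ 3 / 2 * d * θ := by
  have hd1 : (1:ℝ) ≤ d := by exact_mod_cast hd
  unfold nb cell at h
  rw [Fintype.mem_piFinset] at h
  have h1 : ∀ k, |(v - WithLp.toLp 2 (fun k => θ * ((m k : ℝ) + 1 / 2)) : E d) k| ≤ 3 / 2 * θ := by
    intro k
    have h2 := Finset.mem_Icc.1 (h k)
    have a1 := Int.floor_le (v k / θ)
    have a2 := Int.lt_floor_add_one (v k / θ)
    rw [le_div_iff₀ hθ] at a1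
    rw [div_lt_iff₀ hθ] at a2
    have h3 : ((⌊v k / θ⌋ : ℝ) - 1) ≤ m k := by exact_mod_cast h2.1
    have h4 : (m k : ℝ) ≤ (⌊v k / θ⌋ : ℝ) + 1 := by exact_mod_cast h2.2
    show |v k - θ * ((m k : ℝ) + 1 / 2)| ≤ 3 / 2 * θ
    rw [abs_le]
    constructor <;> nlinarith
  have h2 : ‖v - WithLp.toLp 2 (fun k => θ * ((m k : ℝ) + 1 / 2))‖ ^ 2
      ≤ (3 / 2 * d * θ) ^ 2 := by
    rw [EuclideanSpace.norm_sq_eq]
    calc ∑ k, ‖(v - WithLp.toLp 2 (fun k => θ * ((m k : ℝ) + 1 / 2)) : E d) k‖ ^ 2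
        ≤ ∑ _k : Fin d, (3 / 2 * θ) ^ 2 := by
          apply Finset.sum_le_sum
          intro k _
          rw [Real.norm_eq_abs]
          exact pow_le_pow_left₀ (abs_nonneg _) (h1 k) 2
      _ = d * (3 / 2 * θ) ^ 2 := by simp
      _ ≤ _ := by
          have : (3 / 2 * d * θ) ^ 2 = (d * d) * (3 / 2 * θ) ^ 2 := by ring
          rw [this]
          gcongr
          nlinarith
  exact (pow_le_pow_iff_left₀ (norm_nonneg _) (by positivity) two_ne_zero).1 h2

/-- **The pairs of pieces with close slopes.** -/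
theorem near_pairs {d N : ℕ} (hd : 1 ≤ d) {γ : ℝ → E (d + 1)} (hγ : Continuous γ)
    (hN : OrderLE N γ) {r σ ρ θ : ℝ} (hρ : ρ ≠ 0) (hθ : 0 < θ) (hσ : 0 < σ) (h1 : σ * |ρ| ≤ r)
    (h2 : 16 * r ≤ 3 * d * θ * |ρ|) {J : ℕ}
    (hJ : 1 + (d + 1) * N * (3 * d * θ * |ρ|) / (4 * r) ≤ (2:ℝ) ^ J)
    {ι : Type*} (I : Finset ι) (t : ι → ℝ) (v : ι → E d)
    (hsep : ∀ i ∈ I, ∀ j ∈ I, i ≠ j → σ ≤ ‖v i - v j‖) :
    ∑ i ∈ I, ∑ j ∈ I with ‖v i - v j‖ ≤ θ,
        volume (Pc (γ (t i)) (v i) ρ r ∩ Pc (γ (t j)) (v j) ρ r)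
      ≤ 3 ^ d * (bd d N J ρ r σ * I.card) := by
  classical
  have hd1 : (1:ℝ) ≤ d := by exact_mod_cast hd
  have hρ0 : 0 < |ρ| := abs_pos.2 hρ
  set c : ι → (Fin d → ℤ) := fun i => cell θ (v i) with hc
  set Im : (Fin d → ℤ) → Finset ι := fun m => I.filter (fun i => m ∈ nb (c i)) with hIm
  set f : ι → ι → ℝ≥0∞ := fun i j =>
    volume (Pc (γ (t i)) (v i) ρ r ∩ Pc (γ (t j)) (v j) ρ r) with hf
  have key : ∀ m, ∑ i ∈ Im m, ∑ j ∈ Im m, f i j ≤ bd d N J ρ r σ * (Im m).card := by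
    intro m
    have h3 := scale_est hd hγ hN hρ (l := 3 * d * θ * |ρ|) (by positivity) hσ h1 h2 hJ
      (WithLp.toLp 2 (fun k => θ * ((m k : ℝ) + 1 / 2))) (Im m) t v (by
        intro i hi
        have h4 := cell_near hd hθ (Finset.mem_filter.1 hi).2
        nlinarith) (by
        intro i hi j hj hij
        exact hsep i (Finset.mem_filter.1 hi).1 j (Finset.mem_filter.1 hj).1 hij)
    rw [lintegral_Fs_sq _ (fun i => measurableSet_Pc _ _ _ _)] at h3
    exact h3
  calc ∑ i ∈ I, ∑ j ∈ I with ‖v i - v j‖ ≤ θ, f i j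
      = ∑ m ∈ I.image c, ∑ i ∈ I with c i = m, ∑ j ∈ I with ‖v i - v j‖ ≤ θ, f i j :=
        (Finset.sum_fiberwise_of_maps_to (fun i hi => Finset.mem_image_of_mem c hi) _).symm
    _ ≤ ∑ m ∈ I.image c, ∑ i ∈ Im m, ∑ j ∈ Im m, f i j := by
        apply Finset.sum_le_sum
        intro m _
        have hsub : I.filter (fun i => c i = m) ⊆ Im m := by
          intro i hi
          obtain ⟨hi1, hi2⟩ := Finset.mem_filter.1 hi
          refine Finset.mem_filter.2 ⟨hi1, ?_⟩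
          rw [← hi2]
          exact cell_nb hθ (by simp [hθ.le])
        refine (Finset.sum_le_sum fun i hi => ?_).trans
          (Finset.sum_le_sum_of_subset hsub)
        apply Finset.sum_le_sum_of_subset
        intro j hj
        obtain ⟨hj1, hj2⟩ := Finset.mem_filter.1 hj
        refine Finset.mem_filter.2 ⟨hj1, ?_⟩
        rw [← (Finset.mem_filter.1 hi).2]
        exact cell_nb hθ hj2
    _ ≤ ∑ m ∈ I.image c, bd d N J ρ r σ * (Im m).card := Finset.sum_le_sum fun m _ => key m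
    _ = bd d N J ρ r σ * ∑ m ∈ I.image c, ((Im m).card : ℝ≥0∞) := by rw [Finset.mul_sum]
    _ ≤ bd d N J ρ r σ * (3 ^ d * I.card) := by
        gcongr
        have h3 : ∑ m ∈ I.image c, (Im m).card ≤ 3 ^ d * I.card := by
          calc ∑ m ∈ I.image c, (Im m).card
              = ∑ m ∈ I.image c, ∑ i ∈ I, if m ∈ nb (c i) then 1 else 0 := by
                refine Finset.sum_congr rfl fun m _ => ?_
                rw [hIm, Finset.card_filter]
            _ = ∑ i ∈ I, ∑ m ∈ I.image c, if m ∈ nb (c i) then 1 else 0 := Finset.sum_comm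
            _ ≤ ∑ i ∈ I, 3 ^ d := by
                apply Finset.sum_le_sum
                intro i _
                rw [← Finset.card_filter, ← card_nb (c i)]
                apply Finset.card_le_card
                intro m hm
                exact (Finset.mem_filter.1 hm).2
            _ = _ := by rw [Finset.sum_const, smul_eq_mul, mul_comm]
        exact_mod_cast h3
    _ = _ := by ring

/-- The measure of a set of points with slices of measure at most `A`, at the heights in `H`. -/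
theorem volume_le_slices {d : ℕ} {S : Set (E (d + 1))} (hS : MeasurableSet S) {H : Set ℝ}
    {A : ℝ≥0∞} (hH : ∀ x ∈ S, x 0 ∈ H) (hA : ∀ h, volume {y : E d | ins h y ∈ S} ≤ A) :
    volume S ≤ volume H * A := by
  have hins : ∀ h : ℝ, Measurable (fun y : E d => ins h y) := fun h =>
    measurable_ins.comp (measurable_const.prodMk measurable_id)
  calc volume S = ∫⁻ x, S.indicator (fun _ => 1) x := by
        rw [lintegral_indicator hS, setLIntegral_const, one_mul]
    _ = ∫⁻ h : ℝ, ∫⁻ y : E d, S.indicator (fun _ => (1:ℝ≥0∞)) (ins h y) :=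
        lintegral_ins (measurable_const.indicator hS)
    _ ≤ ∫⁻ h : ℝ, (toMeasurable volume H).indicator (fun _ => A) h := by
        apply lintegral_mono
        intro h
        have e : ∫⁻ y : E d, S.indicator (fun _ => (1:ℝ≥0∞)) (ins h y)
            = volume {y : E d | ins h y ∈ S} := by
          have e2 : ∀ y : E d, S.indicator (fun _ => (1:ℝ≥0∞)) (ins h y)
              = {y : E d | ins h y ∈ S}.indicator (fun _ => 1) y := by
            intro y
            by_cases hy : ins h y ∈ S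
            · rw [indicator_of_mem hy, indicator_of_mem]; exact hy
            · rw [indicator_of_notMem hy, indicator_of_notMem]; exact hy
          simp_rw [e2]
          rw [lintegral_indicator (s := {y : E d | ins h y ∈ S}) (hins h hS), setLIntegral_const,
            one_mul]
        show ∫⁻ y : E d, S.indicator (fun _ => (1:ℝ≥0∞)) (ins h y) ≤ _
        rw [e]
        by_cases hh : h ∈ toMeasurable volume H
        · rw [indicator_of_mem hh]; exact hA h
        · rw [indicator_of_notMem hh]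
          have : {y : E d | ins h y ∈ S} = ∅ := by
            ext y
            simp only [mem_ofPred_eq, mem_empty_iff_false, iff_false]
            intro hy
            apply hh
            have := hH _ hy
            rw [ins_zero] at this
            exact subset_toMeasurable _ _ this
          rw [this]; simp
    _ = volume H * A := by
        rw [lintegral_indicator (measurableSet_toMeasurable _ _), setLIntegral_const,
          measure_toMeasurable, mul_comm]

theorem slice_le {d : ℕ} (q : E (d + 1)) (v : E d) (r h : ℝ) {S : Set (E (d + 1))}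
    (hS : ∀ x ∈ S, ‖tl x - tl q - (x 0 - q 0) • v‖ ≤ r) :
    volume {y : E d | ins h y ∈ S} ≤ vB d r := by
  have hsub : {y : E d | ins h y ∈ S} ⊆ closedBall (tl q + (h - q 0) • v) r := by
    intro y hy
    have h1 := hS _ hy
    rw [tl_ins, ins_zero] at h1
    rw [mem_closedBall, dist_eq_norm, ← sub_sub]
    exact h1
  refine (measure_mono hsub).trans (le_of_eq ?_)
  rw [Measure.addHaar_closedBall_center]
  rfl

theorem volume_Pc_le {d : ℕ} (q : E (d + 1)) (v : E d) {ρ : ℝ} (hρ : ρ ≠ 0) (r : ℝ) :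
    volume (Pc q v ρ r) ≤ ENNReal.ofReal |ρ| * vB d r := by
  have h1 := volume_le_slices (measurableSet_Pc q v ρ r)
    (H := {h | 9 / 8 ≤ (h - q 0) / ρ ∧ (h - q 0) / ρ ≤ 3 / 2}) (fun x hx => ⟨hx.1, hx.2.1⟩)
    (fun h => slice_le q v r h (fun x hx => hx.2.2))
  refine h1.trans ?_
  gcongr
  refine (Real.volume_le_diam _).trans ?_
  apply Metric.ediam_le
  intro x hx y hy
  rw [edist_dist]
  apply ENNReal.ofReal_le_ofReal
  rw [Real.dist_eq]
  have h2 : |(x - q 0) / ρ - (y - q 0) / ρ| ≤ 1 := by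
    rw [abs_le]; constructor <;> linarith [hx.1, hx.2, hy.1, hy.2]
  rw [← _root_.sub_div, sub_sub_sub_cancel_right, abs_div, div_le_one (abs_pos.2 hρ)] at h2
  exact h2

/-- Two tubes of different slopes. -/
theorem volume_inter_le {d : ℕ} (q q' : E (d + 1)) {v v' : E d} {r : ℝ} (hv : v ≠ v')
    {S S' : Set (E (d + 1))} (hSm : MeasurableSet S) (hSm' : MeasurableSet S')
    (hS : ∀ x ∈ S, ‖tl x - tl q - (x 0 - q 0) • v‖ ≤ r)
    (hS' : ∀ x ∈ S', ‖tl x - tl q' - (x 0 - q' 0) • v'‖ ≤ r) :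
    volume (S ∩ S') ≤ ENNReal.ofReal (4 * r / ‖v - v'‖) * vB d r := by
  have hpos : 0 < ‖v - v'‖ := norm_pos_iff.2 (sub_ne_zero.2 hv)
  set b : E d := (tl q - q 0 • v) - (tl q' - q' 0 • v') with hb
  have h1 := volume_le_slices (hSm.inter hSm') (H := {h : ℝ | ‖b + h • (v - v')‖ ≤ 2 * r}) (by
      rintro x ⟨hx, hx'⟩
      have e : b + x 0 • (v - v') = (tl x - tl q' - (x 0 - q' 0) • v')
          - (tl x - tl q - (x 0 - q 0) • v) := by
        rw [hb, smul_sub, sub_smul, sub_smul]; abel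
      show ‖b + x 0 • (v - v')‖ ≤ 2 * r
      rw [e]
      refine (norm_sub_le _ _).trans ?_
      linarith [hS x hx, hS' x hx'])
    (fun h => slice_le q v r h (fun x hx => hS x hx.1))
  refine h1.trans ?_
  gcongr
  refine (Real.volume_le_diam _).trans ?_
  apply Metric.ediam_le
  intro x hx y hy
  rw [edist_dist]
  apply ENNReal.ofReal_le_ofReal
  rw [Real.dist_eq, le_div_iff₀ hpos]
  have e : (x - y) • (v - v') = (b + x • (v - v')) - (b + y • (v - v')) := by
    rw [sub_smul]; abel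
  calc |x - y| * ‖v - v'‖ = ‖(x - y) • (v - v')‖ := by rw [norm_smul, Real.norm_eq_abs]
    _ ≤ ‖b + x • (v - v')‖ + ‖b + y • (v - v')‖ := by rw [e]; exact norm_sub_le _ _
    _ ≤ 4 * r := by
        have h3 : ‖b + x • (v - v')‖ ≤ 2 * r := hx
        have h4 : ‖b + y • (v - v')‖ ≤ 2 * r := hy
        linarith

end Run7.h534.Cv
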