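import Pool.Agent.Run7.h534.Cv.One

set_option autoImplicit false

/-!
The sum over the scales: tubes through the points of a curve of finite order whose slopes are
separated.
-/

open MeasureTheory Set Filter Topology ENNReal NNReal Metric

namespace Run7.h534.Cv

open Pool.Agent.H742R2.Kk Pool.Agent.W767.Kc

/-- The tube of radius `r` around the line through `q` with slope `v`, at the heights at distance at
most `b` from the height of `q`. -/
def Tc {d : ℕ} (q : E (d + 1)) (v : E d) (r b : ℝ) : Set (E (d + 1)) :=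
  {x | |x 0 - q 0| ≤ b ∧ ‖tl x - tl q - (x 0 - q 0) • v‖ ≤ r}

theorem measurableSet_Tc {d : ℕ} (q : E (d + 1)) (v : E d) (r b : ℝ) :
    MeasurableSet (Tc q v r b) := by
  have h0 : Continuous (fun x : E (d + 1) => x 0) := by fun_prop
  have h1 : Continuous (fun x : E (d + 1) => |x 0 - q 0|) := (h0.sub continuous_const).abs
  have h2 : Continuous (fun x : E (d + 1) => ‖tl x - tl q - (x 0 - q 0) • v‖) :=
    ((continuous_tl.sub continuous_const).sub ((h0.sub continuous_const).smul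
      continuous_const)).norm
  exact (measurableSet_le h1.measurable measurable_const).inter
      (measurableSet_le h2.measurable measurable_const)

theorem volume_Tc_le {d : ℕ} (q : E (d + 1)) (v : E d) (r b : ℝ) :
    volume (Tc q v r b) ≤ ENNReal.ofReal (2 * b) * vB d r := by
  refine (volume_le_slices (measurableSet_Tc q v r b) (H := {h | |h - q 0| ≤ b})
    (fun x hx => hx.1) (fun h => slice_le q v r h (fun x hx => hx.2))).trans ?_
  gcongr
  refine (Real.volume_le_diam _).trans ?_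
  apply Metric.ediam_le
  intro x hx y hy
  rw [edist_dist]
  apply ENNReal.ofReal_le_ofReal
  rw [Real.dist_eq]
  have h1 := abs_le.1 (show |x - q 0| ≤ b from hx)
  have h2 := abs_le.1 (show |y - q 0| ≤ b from hy)
  rw [abs_le]
  constructor <;> linarith [h1.1, h1.2, h2.1, h2.2]

/-- **Minkowski's inequality** for finite sums. -/
theorem mink {n : ℕ} {q : ℝ} (hq : 1 ≤ q) {ι : Type*} (s : Finset ι) (f : ι → E n → ℝ≥0∞)
    (hf : ∀ i, Measurable (f i)) :
    (∫⁻ y, (∑ i ∈ s, f i y) ^ q) ^ (1 / q) ≤ ∑ i ∈ s, (∫⁻ y, f i y ^ q) ^ (1 / q) := by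
  classical
  have hq0 : 0 < q := by linarith
  induction s using Finset.induction_on with
  | empty => simp [ENNReal.zero_rpow_of_pos hq0, hq0]
  | insert a s ha ih =>
    simp_rw [Finset.sum_insert ha]
    have h := ENNReal.lintegral_Lp_add_le (μ := volume) (f := f a) (g := fun y => ∑ i ∈ s, f i y)
      (hf a).aemeasurable (Finset.measurable_fun_sum _ (fun i _ => hf i)).aemeasurable hq
    simp only [Pi.add_apply] at h
    exact h.trans (by gcongr)

/-- The heights are in the core or in a shell. -/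
theorem shells (a : ℝ) (L : ℕ) (h : ℝ) (hh : h ≤ 9 / 8 * (a * (4 / 3) ^ L)) :
    h ≤ 9 / 8 * a ∨ ∃ j < L, 9 / 8 * (a * (4 / 3) ^ j) ≤ h ∧ h ≤ 3 / 2 * (a * (4 / 3) ^ j) := by
  induction L with
  | zero => left; simpa using hh
  | succ L ih =>
    rcases le_or_gt h (9 / 8 * (a * (4 / 3) ^ L)) with h1 | h1
    · rcases ih h1 with h2 | ⟨j, hj, h2⟩
      · exact Or.inl h2
      · exact Or.inr ⟨j, by omega, h2⟩
    · right
      refine ⟨L, by omega, h1.le, ?_⟩
      rw [pow_succ] at hh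
      linarith

theorem Fs_le_card {n : ℕ} {ι : Type*} (I : Finset ι) (S : ι → Set (E n)) (x : E n) :
    Fs I S x ≤ I.card := by
  unfold Fs
  calc ∑ i ∈ I, (S i).indicator (fun _ => (1:ℝ≥0∞)) x ≤ ∑ _i ∈ I, (1:ℝ≥0∞) := by
        apply Finset.sum_le_sum
        intro i _
        exact indicator_le_self' (fun _ _ => zero_le) x
    _ = _ := by simp

theorem Fs_rpow_le {n : ℕ} {ι : Type*} (I : Finset ι) {S : ι → Set (E n)} {p q : ℝ}
    (hp : 0 ≤ p) (hpq : p ≤ q) :
    ∫⁻ y, Fs I S y ^ q ≤ (I.card : ℝ≥0∞) ^ (q - p) * ∫⁻ y, Fs I S y ^ p := by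
  rw [← lintegral_const_mul' _ _ (ENNReal.rpow_ne_top_of_nonneg (by linarith) (by simp))]
  apply lintegral_mono
  intro y
  show Fs I S y ^ q ≤ (I.card : ℝ≥0∞) ^ (q - p) * Fs I S y ^ p
  have e : q = (q - p) + p := by ring
  conv_lhs => rw [e, ENNReal.rpow_add_of_nonneg _ _ (by linarith) hp]
  gcongr
  exact Fs_le_card I S y

theorem lintegral_Fs {n : ℕ} {ι : Type*} (I : Finset ι) {S : ι → Set (E n)}
    (hS : ∀ i, MeasurableSet (S i)) : ∫⁻ y, Fs I S y = ∑ i ∈ I, volume (S i) := by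
  unfold Fs
  rw [lintegral_finsetSum _ (fun i _ => measurable_const.indicator (hS i))]
  refine Finset.sum_congr rfl fun i _ => ?_
  rw [lintegral_indicator (hS i), setLIntegral_const, one_mul]

/-- The exponents. -/
theorem scale_identity {d : ℕ} (hd : 1 ≤ d) {x s M : ℝ} (hdx : 1 < d * x) (hM : 0 < M) (j : ℕ) :
    s ^ d * |M ^ (-(1 / d : ℝ)) * (4 / 3) ^ j| ^ (1 - d * x * (1 - (d * x - 1) / (2 * (d * x))))
      * M ^ (1 + (d * x - 1) / (2 * (d * x)) * x)
      = s ^ d * M ^ (1 + x - 1 / d) * ((3 / 4 : ℝ) ^ ((d * x - 1) / 2)) ^ j := by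
  have hd0 : (0:ℝ) < d := by exact_mod_cast hd
  have hx : 0 < x := by
    by_contra h
    push Not at h
    nlinarith
  have e1 : 1 - d * x * (1 - (d * x - 1) / (2 * (d * x))) = -((d * x - 1) / 2) := by
    field_simp
    ring
  rw [e1, abs_of_pos (by positivity), Real.mul_rpow (by positivity) (by positivity),
    ← Real.rpow_mul hM.le]
  have e2 : ((4 / 3 : ℝ) ^ j) ^ (-((d * x - 1) / 2)) = ((3 / 4 : ℝ) ^ ((d * x - 1) / 2)) ^ j := by
    rw [← Real.rpow_natCast, ← Real.rpow_mul (by norm_num), ← Real.rpow_natCast,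
      ← Real.rpow_mul (by norm_num)]
    have : (3 / 4 : ℝ) = (4 / 3)⁻¹ := by norm_num
    rw [this, Real.inv_rpow (by norm_num), ← Real.rpow_neg (by norm_num)]
    congr 1
    ring
  rw [e2]
  have e3 : M ^ (1 + x - 1 / d) = M ^ (-(1 / d) * -((d * x - 1) / 2))
      * M ^ (1 + (d * x - 1) / (2 * (d * x)) * x) := by
    rw [← Real.rpow_add hM]
    congr 1
    field_simp
    ring
  rw [e3]
  ring

/-- **The chart estimate** for `q ≤ 2`. -/
theorem chart_le_two {d : ℕ} (hd : 1 ≤ d) (N : ℕ) {B : ℝ} (hB : 1 ≤ B) {x : ℝ} (hdx : 1 < d * x)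
    (hx1 : x ≤ 1) :
    ∃ C : ℝ≥0∞, C ≠ ∞ ∧ ∀ γ : ℝ → E (d + 1), Continuous γ → OrderLE N γ →
      ∀ σ : ℝ, 0 < σ → ∀ (ι : Type) (I : Finset ι) (τ : ι → ℝ) (v : ι → E d),
      (∀ i ∈ I, ∀ j ∈ I, i ≠ j → σ ≤ ‖v i - v j‖) → I.Nonempty →
      ∫⁻ y, Fs I (fun i => Tc (γ (τ i)) (v i) (B * σ) B) y ^ (1 + x)
        ≤ C * ENNReal.ofReal (σ ^ d * (I.card : ℝ) ^ (1 + x - 1 / d)) := by
  classical
  have hd0 : (0:ℝ) < d := by exact_mod_cast hd
  have hx0 : 0 < x := by
    by_contra h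
    push Not at h
    nlinarith
  have hdx0 : 0 < d * x := by linarith
  set t := (d * x - 1) / (2 * (d * x)) with ht
  have ht0 : 0 < t := by
    have : 0 < d * x - 1 := by linarith
    positivity
  have ht1 : t ≤ 1 := by
    rw [ht, div_le_one (by positivity)]; linarith
  obtain ⟨C1, hC1, h1⟩ := one_scale hd N (by linarith : 0 < B) hx0 hx1 ht0 ht1
  set q := 1 + x with hq
  have hq1 : 1 ≤ q := by linarith
  have hq0 : 0 < q := by linarith
  set b := (d * x - 1) / 2 with hb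
  have hb0 : 0 < b := by rw [hb]; linarith
  set w : ℝ := ((3 / 4 : ℝ) ^ b) ^ (1 / q) with hw
  have hw0 : 0 ≤ w := by positivity
  have hw1 : w < 1 :=
    Real.rpow_lt_one (by positivity) (Real.rpow_lt_one (by norm_num) (by norm_num) hb0)
      (by positivity)
  set C0 : ℝ≥0∞ := ENNReal.ofReal (9 / 4) * (ENNReal.ofReal (B ^ d) * vB d 1) with hC0
  have hC0t : C0 ≠ ∞ := ENNReal.mul_ne_top ENNReal.ofReal_ne_top
    (ENNReal.mul_ne_top ENNReal.ofReal_ne_top (vB_ne_top _ _))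
  set G : ℝ≥0∞ := ∑' j : ℕ, ENNReal.ofReal (w ^ j) with hG
  have hGt : G ≠ ∞ := (summable_geometric_of_lt_one hw0 hw1).tsum_ofReal_ne_top
  set C3 : ℝ≥0∞ := C0 ^ (1 / q) + (C1 ^ (1 / q) * G + C1 ^ (1 / q) * G) with hC3
  have hq' : 0 ≤ 1 / q := by positivity
  have hC3t : C3 ≠ ∞ := by
    have h2 : C1 ^ (1 / q) * G ≠ ∞ :=
      ENNReal.mul_ne_top (ENNReal.rpow_ne_top_of_nonneg hq' hC1) hGt
    exact ENNReal.add_ne_top.2 ⟨ENNReal.rpow_ne_top_of_nonneg hq' hC0t,
      ENNReal.add_ne_top.2 ⟨h2, h2⟩⟩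
  refine ⟨C3 ^ q, ENNReal.rpow_ne_top_of_nonneg hq0.le hC3t, ?_⟩
  intro γ hγ hN σ hσ ι I τ v hsep hI
  set M : ℝ := (I.card : ℝ) with hM
  have hM1 : 1 ≤ M := by rw [hM]; exact_mod_cast Finset.card_pos.2 hI
  have hM0 : 0 < M := by linarith
  set a : ℝ := M ^ (-(1 / d : ℝ)) with ha
  have ha0 : 0 < a := by positivity
  set Z : ℝ≥0∞ := ENNReal.ofReal (σ ^ d * M ^ (1 + x - 1 / d)) with hZ
  set r := B * σ with hr
  -- the number of shells
  have hex : ∃ L : ℕ, B ≤ 9 / 8 * (a * (4 / 3) ^ L) := by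
    obtain ⟨L, hL⟩ := pow_unbounded_of_one_lt (B / (9 / 8 * a)) (by norm_num : (1:ℝ) < 4 / 3)
    refine ⟨L, ?_⟩
    rw [div_lt_iff₀ (by positivity)] at hL
    linarith
  set L := Nat.find hex with hL
  have hL1 : B ≤ 9 / 8 * (a * (4 / 3) ^ L) := Nat.find_spec hex
  have hL2 : ∀ j < L, a * (4 / 3) ^ j ≤ B := by
    intro j hj
    have h2 := Nat.find_min hex hj
    push Not at h2
    have : 0 < a * (4 / 3) ^ j := by positivity
    linarith
  -- the functions
  set F0 : E (d + 1) → ℝ≥0∞ := Fs I (fun i => Tc (γ (τ i)) (v i) r (9 / 8 * a)) with hF0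
  set Fp : ℕ → E (d + 1) → ℝ≥0∞ := fun j => Fs I (fun i => Pc (γ (τ i)) (v i) (a * (4 / 3) ^ j) r)
    with hFp
  set Fn : ℕ → E (d + 1) → ℝ≥0∞ := fun j => Fs I (fun i => Pc (γ (τ i)) (v i)
    (-(a * (4 / 3) ^ j)) r) with hFn
  have hF0m : Measurable F0 := measurable_Fs I (fun i => measurableSet_Tc _ _ _ _)
  have hFpm : ∀ j, Measurable (Fp j) := fun j => measurable_Fs I (fun i => measurableSet_Pc _ _ _ _)
  have hFnm : ∀ j, Measurable (Fn j) := fun j => measurable_Fs I (fun i => measurableSet_Pc _ _ _ _)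
  have hpt : ∀ y, Fs I (fun i => Tc (γ (τ i)) (v i) r B) y
      ≤ F0 y + (∑ j ∈ Finset.range L, Fp j y + ∑ j ∈ Finset.range L, Fn j y) := by
    intro y
    simp only [hF0, hFp, hFn, Fs]
    rw [Finset.sum_comm (s := Finset.range L), Finset.sum_comm (s := Finset.range L),
      ← Finset.sum_add_distrib, ← Finset.sum_add_distrib]
    apply Finset.sum_le_sum
    intro i _
    by_cases hy : y ∈ Tc (γ (τ i)) (v i) r B
    swap
    · rw [indicator_of_notMem hy]; exact zero_le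
    rw [indicator_of_mem hy]
    obtain ⟨hy1, hy2⟩ := hy
    rcases shells a L _ (hy1.trans hL1) with h2 | ⟨j, hj, h2, h3⟩
    · rw [indicator_of_mem (s := Tc (γ (τ i)) (v i) r (9 / 8 * a)) ⟨h2, hy2⟩]
      exact le_self_add
    · have hρ : 0 < a * (4 / 3) ^ j := by positivity
      rcases le_total 0 (y 0 - γ (τ i) 0) with h4 | h4
      · rw [abs_of_nonneg h4] at h2 h3
        have hmem : y ∈ Pc (γ (τ i)) (v i) (a * (4 / 3) ^ j) r :=
          ⟨by rw [le_div_iff₀ hρ]; exact h2, by rw [div_le_iff₀ hρ]; exact h3, hy2⟩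
        have h5 : (1:ℝ≥0∞) ≤ ∑ j ∈ Finset.range L,
            (Pc (γ (τ i)) (v i) (a * (4 / 3) ^ j) r).indicator (fun _ => (1:ℝ≥0∞)) y := by
          have := Finset.single_le_sum (s := Finset.range L) (f := fun j =>
            (Pc (γ (τ i)) (v i) (a * (4 / 3) ^ j) r).indicator (fun _ => (1:ℝ≥0∞)) y)
            (fun _ _ => zero_le) (Finset.mem_range.2 hj)
          simp only [indicator_of_mem hmem] at this
          exact this
        exact h5.trans (le_self_add.trans le_add_self)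
      · rw [abs_of_nonpos h4] at h2 h3
        have hmem : y ∈ Pc (γ (τ i)) (v i) (-(a * (4 / 3) ^ j)) r := by
          refine ⟨?_, ?_, hy2⟩
          · rw [div_neg, ← neg_div, le_div_iff₀ hρ]; exact h2
          · rw [div_neg, ← neg_div, div_le_iff₀ hρ]; exact h3
        have h5 : (1:ℝ≥0∞) ≤ ∑ j ∈ Finset.range L,
            (Pc (γ (τ i)) (v i) (-(a * (4 / 3) ^ j)) r).indicator (fun _ => (1:ℝ≥0∞)) y := by
          have := Finset.single_le_sum (s := Finset.range L) (f := fun j =>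
            (Pc (γ (τ i)) (v i) (-(a * (4 / 3) ^ j)) r).indicator (fun _ => (1:ℝ≥0∞)) y)
            (fun _ _ => zero_le) (Finset.mem_range.2 hj)
          simp only [indicator_of_mem hmem] at this
          exact this
        exact h5.trans (le_add_self.trans le_add_self)
  -- the bounds
  have hb0' : (∫⁻ y, F0 y ^ q) ^ (1 / q) ≤ C0 ^ (1 / q) * Z ^ (1 / q) := by
    rw [← ENNReal.mul_rpow_of_nonneg _ _ hq']
    gcongr
    have h2 := Fs_rpow_le I (S := fun i => Tc (γ (τ i)) (v i) r (9 / 8 * a)) zero_le_one hq1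
    simp only [ENNReal.rpow_one] at h2
    rw [lintegral_Fs I (fun i => measurableSet_Tc _ _ _ _)] at h2
    refine h2.trans ?_
    calc (I.card : ℝ≥0∞) ^ (q - 1) * ∑ i ∈ I, volume (Tc (γ (τ i)) (v i) r (9 / 8 * a))
        ≤ (I.card : ℝ≥0∞) ^ (q - 1) * ∑ _i ∈ I, ENNReal.ofReal (2 * (9 / 8 * a)) * vB d r := by
          gcongr with i _
          exact volume_Tc_le _ _ _ _
      _ = _ := by
          have hcard : (I.card : ℝ≥0∞) = ENNReal.ofReal M := by simp [hM]
          have hvB : vB d r = ENNReal.ofReal (B ^ d) * vB d 1 * ENNReal.ofReal (σ ^ d) := by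
            rw [vB_eq d (by positivity : 0 ≤ r), hr, mul_pow, ENNReal.ofReal_mul (by positivity)]
            ring
          rw [Finset.sum_const, nsmul_eq_mul, hcard, hvB, ENNReal.ofReal_rpow_of_pos hM0, hC0, hZ]
          have e1 : σ ^ d * M ^ (1 + x - 1 / d) = M ^ (q - 1) * M * a * σ ^ d := by
            rw [ha, hq]
            have : M ^ (1 + x - 1 / d) = M ^ (1 + x - 1) * M * M ^ (-(1 / d : ℝ)) := by
              nth_rewrite 3 [← Real.rpow_one M]
              rw [← Real.rpow_add hM0, ← Real.rpow_add hM0]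
              congr 1
              ring
            rw [this]
            ring
          have e2 : ENNReal.ofReal (2 * (9 / 8 * a)) = ENNReal.ofReal (9 / 4) * ENNReal.ofReal a := by
            rw [← ENNReal.ofReal_mul (by norm_num)]
            congr 1
            ring
          rw [e2, e1, ENNReal.ofReal_mul (by positivity : 0 ≤ M ^ (q - 1) * M * a),
            ENNReal.ofReal_mul (by positivity : 0 ≤ M ^ (q - 1) * M),
            ENNReal.ofReal_mul (by positivity : 0 ≤ M ^ (q - 1))]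
          ring
  have hsc : ∀ j < L, ∀ ρ : ℝ, |ρ| = |a * (4 / 3) ^ j| →
      (∫⁻ y, Fs I (fun i => Pc (γ (τ i)) (v i) ρ r) y ^ q) ^ (1 / q)
        ≤ C1 ^ (1 / q) * Z ^ (1 / q) * ENNReal.ofReal (w ^ j) := by
    intro j hj ρ hρ
    have hpos : 0 < a * (4 / 3) ^ j := by positivity
    have hρ0 : ρ ≠ 0 := by
      intro h
      rw [h, abs_zero, abs_of_pos hpos] at hρ
      linarith
    have h2 := h1 γ hγ hN σ ρ hσ hρ0 (by rw [hρ, abs_of_pos hpos]; exact hL2 j hj) ι I τ v hsep hI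
    rw [hρ] at h2
    have e := scale_identity hd (s := σ) hdx hM0 j
    rw [← ht, ← ha] at e
    rw [← hM, e] at h2
    calc (∫⁻ y, Fs I (fun i => Pc (γ (τ i)) (v i) ρ r) y ^ q) ^ (1 / q)
        ≤ (C1 * ENNReal.ofReal (σ ^ d * M ^ (1 + x - 1 / d) * ((3 / 4 : ℝ) ^ b) ^ j)) ^ (1 / q) := by
          gcongr
      _ = _ := by
          have e3 : ENNReal.ofReal (((3 / 4 : ℝ) ^ b) ^ j) ^ (1 / q) = ENNReal.ofReal (w ^ j) := by
            rw [ENNReal.ofReal_rpow_of_nonneg (by positivity) hq']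
            congr 1
            have hy : (0:ℝ) ≤ (3 / 4 : ℝ) ^ b := by positivity
            calc (((3 / 4 : ℝ) ^ b) ^ j) ^ (1 / q) = ((3 / 4 : ℝ) ^ b) ^ ((j:ℝ) * (1 / q)) := by
                  rw [Real.rpow_mul hy, Real.rpow_natCast]
              _ = ((3 / 4 : ℝ) ^ b) ^ ((1 / q) * (j:ℝ)) := by rw [mul_comm]
              _ = w ^ j := by rw [Real.rpow_mul hy, Real.rpow_natCast]
          rw [ENNReal.ofReal_mul (by positivity), ← mul_assoc,
            ENNReal.mul_rpow_of_nonneg _ _ hq', ENNReal.mul_rpow_of_nonneg _ _ hq', e3]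
  have hsum : ∀ H : ℕ → E (d + 1) → ℝ≥0∞, (∀ j, Measurable (H j)) →
      (∀ j < L, (∫⁻ y, H j y ^ q) ^ (1 / q) ≤ C1 ^ (1 / q) * Z ^ (1 / q) * ENNReal.ofReal (w ^ j)) →
      (∫⁻ y, (∑ j ∈ Finset.range L, H j y) ^ q) ^ (1 / q) ≤ C1 ^ (1 / q) * G * Z ^ (1 / q) := by
    intro H hH h
    refine (mink hq1 _ H hH).trans ?_
    calc ∑ j ∈ Finset.range L, (∫⁻ y, H j y ^ q) ^ (1 / q)
        ≤ ∑ j ∈ Finset.range L, C1 ^ (1 / q) * Z ^ (1 / q) * ENNReal.ofReal (w ^ j) :=
          Finset.sum_le_sum fun j hj => h j (Finset.mem_range.1 hj)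
      _ = C1 ^ (1 / q) * Z ^ (1 / q) * ∑ j ∈ Finset.range L, ENNReal.ofReal (w ^ j) := by
          rw [Finset.mul_sum]
      _ ≤ C1 ^ (1 / q) * Z ^ (1 / q) * G := by
          gcongr
          exact ENNReal.sum_le_tsum _
      _ = _ := by ring
  have hfin : (∫⁻ y, Fs I (fun i => Tc (γ (τ i)) (v i) r B) y ^ q) ^ (1 / q)
      ≤ C3 * Z ^ (1 / q) := by
    calc (∫⁻ y, Fs I (fun i => Tc (γ (τ i)) (v i) r B) y ^ q) ^ (1 / q)
        ≤ (∫⁻ y, (F0 y + (∑ j ∈ Finset.range L, Fp j y + ∑ j ∈ Finset.range L, Fn j y)) ^ q)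
          ^ (1 / q) := by
          gcongr with y
          exact hpt y
      _ ≤ (∫⁻ y, F0 y ^ q) ^ (1 / q) + (∫⁻ y, (∑ j ∈ Finset.range L, Fp j y
          + ∑ j ∈ Finset.range L, Fn j y) ^ q) ^ (1 / q) :=
          ENNReal.lintegral_Lp_add_le (μ := volume) (f := F0) (g := fun y =>
            ∑ j ∈ Finset.range L, Fp j y + ∑ j ∈ Finset.range L, Fn j y) hF0m.aemeasurable
            ((Finset.measurable_fun_sum _ (fun j _ => hFpm j)).add
              (Finset.measurable_fun_sum _ (fun j _ => hFnm j))).aemeasurable hq1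
      _ ≤ (∫⁻ y, F0 y ^ q) ^ (1 / q) + ((∫⁻ y, (∑ j ∈ Finset.range L, Fp j y) ^ q) ^ (1 / q)
          + (∫⁻ y, (∑ j ∈ Finset.range L, Fn j y) ^ q) ^ (1 / q)) := by
          gcongr
          exact ENNReal.lintegral_Lp_add_le (μ := volume) (f := fun y =>
            ∑ j ∈ Finset.range L, Fp j y) (g := fun y => ∑ j ∈ Finset.range L, Fn j y)
            (Finset.measurable_fun_sum _ (fun j _ => hFpm j)).aemeasurable
            (Finset.measurable_fun_sum _ (fun j _ => hFnm j)).aemeasurable hq1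
      _ ≤ C0 ^ (1 / q) * Z ^ (1 / q) + (C1 ^ (1 / q) * G * Z ^ (1 / q)
          + C1 ^ (1 / q) * G * Z ^ (1 / q)) := by
          gcongr
          · exact hsum Fp hFpm (fun j hj => hsc j hj _ rfl)
          · exact hsum Fn hFnm (fun j hj => hsc j hj _ (abs_neg _))
      _ = _ := by rw [hC3]; ring
  calc ∫⁻ y, Fs I (fun i => Tc (γ (τ i)) (v i) r B) y ^ q
      = ((∫⁻ y, Fs I (fun i => Tc (γ (τ i)) (v i) r B) y ^ q) ^ (1 / q)) ^ q := by
        rw [← ENNReal.rpow_mul, one_div_mul_cancel hq0.ne', ENNReal.rpow_one]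
    _ ≤ (C3 * Z ^ (1 / q)) ^ q := by gcongr
    _ = C3 ^ q * Z := by
        rw [ENNReal.mul_rpow_of_nonneg _ _ hq0.le, ← ENNReal.rpow_mul,
          one_div_mul_cancel hq0.ne', ENNReal.rpow_one]

/-- **The chart estimate.** -/
theorem chart_all {d : ℕ} (hd : 2 ≤ d) (N : ℕ) {B : ℝ} (hB : 1 ≤ B) {q : ℝ}
    (hq : 1 + 1 / (d:ℝ) < q) :
    ∃ C : ℝ≥0∞, C ≠ ∞ ∧ ∀ γ : ℝ → E (d + 1), Continuous γ → OrderLE N γ →
      ∀ σ : ℝ, 0 < σ → ∀ (ι : Type) (I : Finset ι) (τ : ι → ℝ) (v : ι → E d),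
      (∀ i ∈ I, ∀ j ∈ I, i ≠ j → σ ≤ ‖v i - v j‖) → I.Nonempty →
      ∫⁻ y, Fs I (fun i => Tc (γ (τ i)) (v i) (B * σ) B) y ^ q
        ≤ C * ENNReal.ofReal (σ ^ d * (I.card : ℝ) ^ (q - 1 / d)) := by
  have hd0 : (2:ℝ) ≤ d := by exact_mod_cast hd
  have hdpos : (0:ℝ) < d := by linarith
  rcases le_or_gt q 2 with h2 | h2
  · have h1 : 1 < d * (q - 1) := by
      have : 1 / (d:ℝ) < q - 1 := by linarith
      rw [div_lt_iff₀ hdpos] at this
      linarith
    obtain ⟨C, hC, h⟩ := chart_le_two (by omega : 1 ≤ d) N hB h1 (by linarith)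
    refine ⟨C, hC, ?_⟩
    intro γ hγ hN σ hσ ι I τ v hsep hI
    have := h γ hγ hN σ hσ ι I τ v hsep hI
    rw [add_sub_cancel] at this
    exact this
  · obtain ⟨C, hC, h⟩ := chart_le_two (x := 1) (by omega : 1 ≤ d) N hB (by linarith) le_rfl
    refine ⟨C, hC, ?_⟩
    intro γ hγ hN σ hσ ι I τ v hsep hI
    have h3 := h γ hγ hN σ hσ ι I τ v hsep hI
    have hM0 : (0:ℝ) < I.card := by exact_mod_cast Finset.card_pos.2 hI
    refine (Fs_rpow_le I (p := 1 + 1) (by norm_num) (by linarith)).trans ?_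
    calc (I.card : ℝ≥0∞) ^ (q - (1 + 1)) *
        ∫⁻ y, Fs I (fun i => Tc (γ (τ i)) (v i) (B * σ) B) y ^ ((1:ℝ) + 1)
        ≤ (I.card : ℝ≥0∞) ^ (q - (1 + 1)) *
          (C * ENNReal.ofReal (σ ^ d * (I.card : ℝ) ^ ((1:ℝ) + 1 - 1 / d))) := by gcongr
      _ = C * (ENNReal.ofReal ((I.card : ℝ) ^ (q - (1 + 1))) *
          ENNReal.ofReal (σ ^ d * (I.card : ℝ) ^ ((1:ℝ) + 1 - 1 / d))) := by
          have hcard : (I.card : ℝ≥0∞) = ENNReal.ofReal (I.card : ℝ) := by simp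
          rw [hcard, ENNReal.ofReal_rpow_of_pos hM0]
          ring
      _ = _ := by
          rw [← ENNReal.ofReal_mul (by positivity)]
          congr 2
          have : (I.card : ℝ) ^ (q - 1 / d) = (I.card : ℝ) ^ (q - (1 + 1)) *
              (I.card : ℝ) ^ ((1:ℝ) + 1 - 1 / d) := by
            rw [← Real.rpow_add hM0]
            congr 1
            ring
          rw [this]
          ring

end Run7.h534.Cv
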