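import Pool.Agent.W767.Kc.Tube
import Pool.Agent.W767.Kc.Asm1

set_option autoImplicit false

/-!
Pieces of tubes that pass through the points of a curve of finite order: the `L²` estimate for the
pieces at distance about one from the curve.
-/

open MeasureTheory Set Filter Topology ENNReal NNReal Metric

namespace Run7.h534.Cv

open Pool.Agent.H742R2.Kk Pool.Agent.W767.Kc

/-- The piece at the heights `q 0 + ρ s`, `9/8 ≤ s ≤ 3/2`, of the tube of radius `r` around the line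
through `q` with slope `v`. -/
def Pc {d : ℕ} (q : E (d + 1)) (v : E d) (ρ r : ℝ) : Set (E (d + 1)) :=
  {x | 9 / 8 ≤ (x 0 - q 0) / ρ ∧ (x 0 - q 0) / ρ ≤ 3 / 2 ∧
    ‖tl x - tl q - (x 0 - q 0) • v‖ ≤ r}

theorem continuous_tl {d : ℕ} : Continuous (fun x : E (d + 1) => tl x) := by
  unfold tl
  fun_prop

theorem measurableSet_Pc {d : ℕ} (q : E (d + 1)) (v : E d) (ρ r : ℝ) :
    MeasurableSet (Pc q v ρ r) := by
  have h0 : Continuous (fun x : E (d + 1) => x 0) := by fun_prop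
  have h1 : Continuous (fun x : E (d + 1) => (x 0 - q 0) / ρ) := by fun_prop
  have h2 : Continuous (fun x : E (d + 1) => ‖tl x - tl q - (x 0 - q 0) • v‖) :=
    ((continuous_tl.sub continuous_const).sub ((h0.sub continuous_const).smul
      continuous_const)).norm
  exact (measurableSet_le measurable_const h1.measurable).inter
    ((measurableSet_le h1.measurable measurable_const).inter
      (measurableSet_le h2.measurable measurable_const))

/-- The sum of the indicator functions. -/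
noncomputable def Fs {d : ℕ} {ι : Type*} (I : Finset ι) (S : ι → Set (E d)) (x : E d) : ℝ≥0∞ :=
  ∑ i ∈ I, (S i).indicator (fun _ => (1:ℝ≥0∞)) x

theorem measurable_Fs {d : ℕ} {ι : Type*} (I : Finset ι) {S : ι → Set (E d)}
    (hS : ∀ i, MeasurableSet (S i)) : Measurable (Fs I S) :=
  Finset.measurable_fun_sum _ (fun i _ => measurable_const.indicator (hS i))

theorem lintegral_Fs_mul {d : ℕ} {ι : Type*} (I : Finset ι) {S : ι → Set (E d)}
    (hS : ∀ i, MeasurableSet (S i)) {G : E d → ℝ≥0∞} (hG : Measurable G) :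
    ∫⁻ x, Fs I S x * G x = ∑ i ∈ I, ∫⁻ x in S i, G x := by
  have h : ∀ x, Fs I S x * G x = ∑ i ∈ I, (S i).indicator G x := by
    intro x
    rw [Fs, Finset.sum_mul]
    refine Finset.sum_congr rfl fun i _ => ?_
    by_cases hx : x ∈ S i
    · rw [indicator_of_mem hx, indicator_of_mem hx, one_mul]
    · rw [indicator_of_notMem hx, indicator_of_notMem hx, zero_mul]
  simp_rw [h]
  rw [lintegral_finsetSum _ (fun i _ => hG.indicator (hS i))]
  exact Finset.sum_congr rfl fun i _ => lintegral_indicator (hS i) _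

theorem lintegral_Fs_sq {d : ℕ} {ι : Type*} (I : Finset ι) {S : ι → Set (E d)}
    (hS : ∀ i, MeasurableSet (S i)) :
    ∫⁻ x, Fs I S x ^ 2 = ∑ i ∈ I, ∑ j ∈ I, volume (S i ∩ S j) := by
  simp_rw [sq]
  rw [lintegral_Fs_mul I hS (measurable_Fs I hS)]
  refine Finset.sum_congr rfl fun i _ => ?_
  unfold Fs
  rw [lintegral_finsetSum _ (fun j _ => measurable_const.indicator (hS j))]
  refine Finset.sum_congr rfl fun j _ => ?_
  rw [lintegral_indicator (hS j), setLIntegral_const, one_mul, Measure.restrict_apply (hS j),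
    inter_comm]

theorem norm_ins_one {d : ℕ} (v : E d) : ‖ins 1 v‖ ^ 2 = 1 + ‖v‖ ^ 2 := by
  rw [norm_sq_eq, ins_zero, tl_ins]; ring

theorem one_le_norm_ins {d : ℕ} (v : E d) : 1 ≤ ‖ins 1 v‖ := by
  have h := norm_ins_one v
  nlinarith [norm_nonneg (ins 1 v), sq_nonneg ‖v‖]

theorem norm_ins_le {d : ℕ} {v : E d} (hv : ‖v‖ ≤ 3 / 4) : ‖ins 1 v‖ ≤ 5 / 4 := by
  have h := norm_ins_one v
  nlinarith [norm_nonneg (ins 1 v), norm_nonneg v]

theorem norm_dir {d : ℕ} (v : E d) : ‖‖ins 1 v‖⁻¹ • ins 1 v‖ = 1 := by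
  have h := one_le_norm_ins v
  rw [norm_smul, norm_inv, norm_norm, inv_mul_cancel₀ (by linarith)]

theorem dir_cone {d : ℕ} {v : E d} (hv : ‖v‖ ≤ 1) : ‖ins 1 v‖⁻¹ • ins 1 v ∈ cone d := by
  have h := one_le_norm_ins v
  show ‖tl (‖ins 1 v‖⁻¹ • ins 1 v)‖ ≤ (‖ins 1 v‖⁻¹ • ins 1 v) 0
  rw [tl_smul, tl_ins, PiLp.smul_apply, ins_zero, norm_smul, norm_inv, norm_norm, smul_eq_mul]
  gcongr

theorem norm_ins_zero {d : ℕ} (w : E d) : ‖ins 0 w‖ = ‖w‖ := by
  have h := norm_sq_eq (ins 0 w)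
  rw [ins_zero, tl_ins] at h
  have h2 : ‖ins 0 w‖ ^ 2 = ‖w‖ ^ 2 := by rw [h]; ring
  exact (sq_eq_sq₀ (norm_nonneg _) (norm_nonneg _)).1 h2

/-- The points of a unit piece are close to the points of the lines with almost the same slope. -/
theorem piece_line {d : ℕ} {q : E (d + 1)} {v v' : E d} {r : ℝ} (hr : 0 < r) (hr1 : r ≤ 1 / 16)
    (hv' : ‖v'‖ ≤ 3 / 4) (hvv : ‖v - v'‖ ≤ r / 2) {x : E (d + 1)} (hx : x ∈ Pc q v 1 r) {s : ℝ}
    (hs : |s - (x 0 - q 0) * ‖ins 1 v'‖| ≤ r) :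
    s ∈ Icc (1:ℝ) 2 ∧ ‖x - (q + s • (‖ins 1 v'‖⁻¹ • ins 1 v'))‖ ≤ 3 * r := by
  obtain ⟨h1, h2, h3⟩ := hx
  rw [div_one] at h1 h2
  set h := x 0 - q 0 with hh
  have hn1 := one_le_norm_ins v'
  have hn2 := norm_ins_le hv'
  obtain ⟨h4, h5⟩ := abs_le.1 hs
  refine ⟨⟨by nlinarith, by nlinarith⟩, ?_⟩
  have e1 : x - (q + (h * ‖ins 1 v'‖) • (‖ins 1 v'‖⁻¹ • ins 1 v'))
      = ins 0 (tl x - tl q - h • v') := by
    rw [smul_smul, mul_assoc, mul_inv_cancel₀ (by linarith), mul_one, ← ins_smul, mul_one]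
    have e2 : ins 0 (tl x - tl q - h • v') + (ins (q 0) (tl q) + ins h (h • v'))
        = ins (x 0) (tl x) := by
      rw [← ins_add, ← ins_add]
      congr 1
      · rw [hh]; ring
      · abel
    rw [ins_eta, ins_eta] at e2
    rw [sub_eq_iff_eq_add]
    exact e2.symm
  have e3 : x - (q + s • (‖ins 1 v'‖⁻¹ • ins 1 v'))
      = (x - (q + (h * ‖ins 1 v'‖) • (‖ins 1 v'‖⁻¹ • ins 1 v')))
        - (s - h * ‖ins 1 v'‖) • (‖ins 1 v'‖⁻¹ • ins 1 v') := by
    rw [sub_smul]; abel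
  rw [e3]
  refine (norm_sub_le _ _).trans ?_
  rw [e1, norm_ins_zero, norm_smul, norm_dir, mul_one, Real.norm_eq_abs]
  have h6 : ‖tl x - tl q - h • v'‖ ≤ r + h * ‖v - v'‖ := by
    have e4 : tl x - tl q - h • v' = (tl x - tl q - h • v) + h • (v - v') := by
      rw [smul_sub]; abel
    rw [e4]
    refine (norm_add_le _ _).trans ?_
    rw [norm_smul, Real.norm_of_nonneg (by linarith)]
    linarith
  nlinarith [norm_nonneg (v - v')]

/-- The integral over a unit piece is at most the integral of the averages along a line. -/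
theorem piece_le {d : ℕ} {q : E (d + 1)} {v v' : E d} {r : ℝ} (hr : 0 < r) (hr1 : r ≤ 1 / 16)
    (hv' : ‖v'‖ ≤ 3 / 4) (hvv : ‖v - v'‖ ≤ r / 2) {F : E (d + 1) → ℝ≥0∞} (hF : Measurable F) :
    ENNReal.ofReal (2 * r) * ∫⁻ x in Pc q v 1 r, F x
      ≤ ∫⁻ s in Icc (1:ℝ) 2, Av (3 * r) F (q + s • (‖ins 1 v'‖⁻¹ • ins 1 v')) := by
  set e := ‖ins 1 v'‖⁻¹ • ins 1 v' with he
  have hcont : Continuous (fun z : ℝ × E (d + 1) => ‖z.2 - (q + z.1 • e)‖) := by fun_prop
  have hm : Measurable (fun z : ℝ × E (d + 1) =>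
      ({z : ℝ × E (d + 1) | ‖z.2 - (q + z.1 • e)‖ ≤ 3 * r}).indicator (fun z => F z.2) z) :=
    (hF.comp measurable_snd).indicator (measurableSet_le hcont.measurable measurable_const)
  have e1 : ∀ s : ℝ, Av (3 * r) F (q + s • e) = ∫⁻ y,
      ({z : ℝ × E (d + 1) | ‖z.2 - (q + z.1 • e)‖ ≤ 3 * r}).indicator (fun z => F z.2) (s, y) := by
    intro s
    rw [Av_eq]
    rfl
  simp_rw [e1]
  rw [lintegral_lintegral_swap (f := fun s y =>
    ({z : ℝ × E (d + 1) | ‖z.2 - (q + z.1 • e)‖ ≤ 3 * r}).indicator (fun z => F z.2) (s, y))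
    hm.aemeasurable, ← lintegral_indicator (measurableSet_Pc _ _ _ _),
    ← lintegral_const_mul' _ _ ENNReal.ofReal_ne_top]
  apply lintegral_mono
  intro y
  simp only
  by_cases hy : y ∈ Pc q v 1 r
  swap
  · rw [indicator_of_notMem hy]; simp
  rw [indicator_of_mem hy]
  set s0 := (y 0 - q 0) * ‖ins 1 v'‖ with hs0
  have hsub : ∀ s : ℝ, (Icc (s0 - r) (s0 + r)).indicator (fun _ => F y) s
      ≤ (Icc (1:ℝ) 2).indicator (fun s =>
        ({z : ℝ × E (d + 1) | ‖z.2 - (q + z.1 • e)‖ ≤ 3 * r}).indicator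
          (fun z => F z.2) (s, y)) s := by
    intro s
    by_cases hs : s ∈ Icc (s0 - r) (s0 + r)
    · have h1 := piece_line hr hr1 hv' hvv hy (s := s) (by
        rw [abs_le]; constructor <;> linarith [hs.1, hs.2])
      rw [indicator_of_mem hs, indicator_of_mem h1.1, indicator_of_mem]
      exact h1.2
    · rw [indicator_of_notMem hs]; exact zero_le
  calc ENNReal.ofReal (2 * r) * F y = ∫⁻ s, (Icc (s0 - r) (s0 + r)).indicator (fun _ => F y) s := by
        rw [lintegral_indicator measurableSet_Icc, setLIntegral_const, Real.volume_Icc, mul_comm]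
        congr 2; ring
    _ ≤ ∫⁻ s, (Icc (1:ℝ) 2).indicator (fun s =>
        ({z : ℝ × E (d + 1) | ‖z.2 - (q + z.1 • e)‖ ≤ 3 * r}).indicator
          (fun z => F z.2) (s, y)) s := lintegral_mono hsub
    _ = _ := lintegral_indicator measurableSet_Icc _

theorem le_of_sq_le_mul {A K : ℝ≥0∞} (hA : A ≠ ∞) (h : A ^ 2 ≤ K * A) : A ≤ K := by
  rcases eq_or_ne A 0 with h0 | h0
  · rw [h0]; exact zero_le
  rw [sq] at h
  exact (ENNReal.mul_le_mul_iff_left h0 hA).1 h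

theorem volume_Pc_ne_top {d : ℕ} {q : E (d + 1)} {v : E d} {ρ r : ℝ} (hρ : ρ ≠ 0) :
    volume (Pc q v ρ r) ≠ ∞ := by
  have hb : Pc q v ρ r ⊆ closedBall q (2 * |ρ| + (2 * |ρ| * ‖v‖ + |r|)) := by
    intro x hx
    obtain ⟨h1, h2, h3⟩ := hx
    have h4 : |x 0 - q 0| ≤ 2 * |ρ| := by
      have h5 : |(x 0 - q 0) / ρ| ≤ 2 := by
        rw [abs_le]; constructor <;> linarith
      rw [abs_div, div_le_iff₀ (abs_pos.2 hρ)] at h5
      exact h5
    have h6 : ‖tl (x - q)‖ ≤ 2 * |ρ| * ‖v‖ + |r| := by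
      have e : tl (x - q) = (tl x - tl q - (x 0 - q 0) • v) + (x 0 - q 0) • v := by
        rw [sub_add_cancel]
        ext i; simp [tl]
      rw [e]
      refine (norm_add_le _ _).trans ?_
      rw [norm_smul, Real.norm_eq_abs]
      have h7 : |x 0 - q 0| * ‖v‖ ≤ 2 * |ρ| * ‖v‖ := by gcongr
      have h8 := le_abs_self r
      linarith
    rw [mem_closedBall, dist_eq_norm]
    have h7 := norm_sq_eq (x - q)
    have h8 : |(x - q) 0| ≤ 2 * |ρ| := h4
    have h9 : (x - q) 0 ^ 2 = |(x - q) 0| ^ 2 := (sq_abs _).symm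
    rw [h9] at h7
    have h10 : 0 ≤ 2 * |ρ| * ‖v‖ + |r| := by positivity
    nlinarith [norm_nonneg (x - q), norm_nonneg (tl (x - q)), abs_nonneg ((x - q) 0)]
  exact ((measure_mono hb).trans_lt measure_closedBall_lt_top).ne

/-- The constant in the unit estimate. -/
noncomputable def cU (d : ℕ) : ℝ≥0∞ :=
  cChart d * (ENNReal.ofReal (2 ^ d * (4 ^ (d + 1) / 2) ^ 2) * ((vB d 1)⁻¹ * (vB (d + 1) 1) ^ 2))

theorem cU_ne_top (d : ℕ) : cU d ≠ ∞ :=
  ENNReal.mul_ne_top (cChart_ne_top d) (ENNReal.mul_ne_top ENNReal.ofReal_ne_top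
    (ENNReal.mul_ne_top (ENNReal.inv_ne_top.2 (vB_ne_zero d one_pos))
      (ENNReal.pow_ne_top (vB_ne_top _ _))))

/-- **The unit estimate.** -/
theorem unit_est {d N : ℕ} (hd : 1 ≤ d) {γ : ℝ → E (d + 1)} (hγ : Continuous γ)
    (hN : OrderLE N γ) {r σ : ℝ} (hσ : 0 < σ) (hσr : σ ≤ r) (hr1 : r ≤ 1 / 16) {J : ℕ}
    (hJ : 1 + (d + 1) * N / (4 * r) ≤ (2:ℝ) ^ J) {ι : Type*} (I : Finset ι) (t : ι → ℝ)
    (v : ι → E d) (hv : ∀ i ∈ I, ‖v i‖ ≤ 1 / 2)
    (hsep : ∀ i ∈ I, ∀ j ∈ I, i ≠ j → σ ≤ ‖v i - v j‖) :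
    ∫⁻ x, Fs I (fun i => Pc (γ (t i)) (v i) 1 r) x ^ 2
      ≤ cU d * (((J:ℝ≥0∞) + 1) ^ 2 * (N + 1)) * ENNReal.ofReal (r ^ (2 * d) / σ ^ d) * I.card := by
  have hr : 0 < r := hσ.trans_le hσr
  set S : ι → Set (E (d + 1)) := fun i => Pc (γ (t i)) (v i) 1 r with hS
  have hSm : ∀ i, MeasurableSet (S i) := fun i => measurableSet_Pc _ _ _ _
  set F := Fs I S with hF
  have hFm : Measurable F := measurable_Fs I hSm
  set A := ∫⁻ x, F x ^ 2 with hA
  have hAtop : A ≠ ∞ := by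
    rw [hA, hF, lintegral_Fs_sq I hSm]
    refine ENNReal.sum_ne_top.2 fun i _ => ENNReal.sum_ne_top.2 fun j _ => ?_
    exact ((measure_mono inter_subset_left).trans_lt
      (lt_top_iff_ne_top.2 (volume_Pc_ne_top one_ne_zero))).ne
  set k : ℝ≥0∞ := ENNReal.ofReal ((2 * r)⁻¹) with hk
  set H1 : E (d + 1) → ℝ≥0∞ := fun z => k * Av (3 * r) F z with hH1
  set H2 : E (d + 1) → ℝ≥0∞ := fun z => k * Av (4 * r) F z with hH2
  have hH1m : Measurable H1 := (measurable_Av _ hFm).const_mul _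
  have hH2m : Measurable H2 := (measurable_Av _ hFm).const_mul _
  have h12 : ∀ x x', ‖x - x'‖ ≤ r → H1 x ≤ H2 x' := by
    intro x x' h
    have h1 := Av_mono_ball (r := 3 * r) F h
    have e : 3 * r + r = 4 * r := by ring
    rw [e] at h1
    simp only [hH1, hH2]
    gcongr
  obtain ⟨M, hMm, hMle, hMint⟩ := chart_est hd hγ hN hH2m hr h12 hJ
  set a : ι → ℝ≥0∞ := fun i => ∫⁻ x in S i, F x with ha
  have hAa : A = ∑ i ∈ I, a i := by
    rw [hA]
    simp_rw [sq]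
    exact lintegral_Fs_mul I hSm hFm
  -- the integral over a piece
  have h1 : ∀ i ∈ I, ∀ w ∈ ball (v i) (σ / 2), a i ^ 2 ≤ M (‖ins 1 w‖⁻¹ • ins 1 w) := by
    intro i hi w hw
    rw [mem_ball, dist_eq_norm] at hw
    have hw1 : ‖v i - w‖ ≤ r / 2 := by rw [norm_sub_rev]; linarith
    have hw2 : ‖w‖ ≤ 3 / 4 := by
      calc ‖w‖ = ‖v i - (v i - w)‖ := by congr 1; abel
        _ ≤ ‖v i‖ + ‖v i - w‖ := norm_sub_le _ _
        _ ≤ 3 / 4 := by linarith [hv i hi]
    have h2 := piece_le (q := γ (t i)) hr hr1 hw2 hw1 hFm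
    have h3 := hMle _ (dir_cone (by linarith)) (norm_dir w) (t i)
    refine le_trans ?_ h3
    gcongr
    have h4 : a i = k * (ENNReal.ofReal (2 * r) * a i) := by
      rw [← mul_assoc, hk, ← ENNReal.ofReal_mul (by positivity), inv_mul_cancel₀ (by positivity),
        ENNReal.ofReal_one, one_mul]
    rw [h4]
    simp only [hH1]
    rw [lintegral_const_mul' _ _ ENNReal.ofReal_ne_top]
    gcongr
  -- sum over the balls
  have hβ : volume (ball (0 : E d) (σ / 2)) = ENNReal.ofReal ((σ / 2) ^ d) * vB d 1 := by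
    haveI : Nonempty (Fin d) := ⟨⟨0, hd⟩⟩
    rw [← vB_eq d (by positivity)]
    exact (Measure.addHaar_closedBall_eq_addHaar_ball volume (0 : E d) (σ / 2)).symm
  set β := volume (ball (0 : E d) (σ / 2)) with hβdef
  have hβ0 : β ≠ 0 := (measure_ball_pos volume _ (by positivity)).ne'
  have hβt : β ≠ ∞ := measure_ball_lt_top.ne
  have h2 : (∑ i ∈ I, a i ^ 2) * β ≤ ∫⁻ w, M (‖ins 1 w‖⁻¹ • ins 1 w) := by
    have hdisj : (I : Set ι).PairwiseDisjoint (fun i => ball (v i) (σ / 2)) := by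
      intro i hi j hj hij
      apply ball_disjoint_ball
      rw [dist_eq_norm]
      linarith [hsep i hi j hj hij]
    rw [Finset.sum_mul]
    calc ∑ i ∈ I, a i ^ 2 * β ≤ ∑ i ∈ I, ∫⁻ w in ball (v i) (σ / 2), M (‖ins 1 w‖⁻¹ • ins 1 w) := by
          apply Finset.sum_le_sum
          intro i hi
          have e : β = volume (ball (v i) (σ / 2)) :=
            (Measure.addHaar_ball_center volume (v i) (σ / 2)).symm
          rw [e, ← setLIntegral_const]
          exact setLIntegral_mono' measurableSet_ball (h1 i hi)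
      _ = ∫⁻ w in ⋃ i ∈ I, ball (v i) (σ / 2), M (‖ins 1 w‖⁻¹ • ins 1 w) :=
          (lintegral_biUnion_finset hdisj (fun i _ => measurableSet_ball) _).symm
      _ ≤ _ := setLIntegral_le_lintegral _ _
  -- the `L²` norm of `H2`
  have h3 : ∫⁻ x, H2 x ^ 2 ≤ ENNReal.ofReal (r ^ (2 * d) * (4 ^ (d + 1) / 2) ^ 2)
      * (vB (d + 1) 1) ^ 2 * A := by
    have e1 : ∀ x, H2 x ^ 2 = (k * vB (d + 1) (4 * r)) ^ 2 * Phi (4 * r) F x ^ 2 := by
      intro x
      simp only [hH2]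
      unfold Phi
      rw [← mul_pow, mul_assoc, ← mul_assoc (vB (d + 1) (4 * r)),
        ENNReal.mul_inv_cancel (vB_ne_zero _ (by positivity)) (vB_ne_top _ _), one_mul]
    simp_rw [e1]
    rw [lintegral_const_mul' _ _ (ENNReal.pow_ne_top (ENNReal.mul_ne_top ENNReal.ofReal_ne_top
      (vB_ne_top _ _)))]
    have e2 : (k * vB (d + 1) (4 * r)) ^ 2
        = ENNReal.ofReal (r ^ (2 * d) * (4 ^ (d + 1) / 2) ^ 2) * (vB (d + 1) 1) ^ 2 := by
      rw [vB_eq _ (by positivity : (0:ℝ) ≤ 4 * r), ← mul_assoc, mul_pow, hk,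
        ← ENNReal.ofReal_mul (by positivity), ← ENNReal.ofReal_pow (by positivity)]
      congr 2
      rw [pow_mul']
      rw [← mul_pow]
      congr 1
      rw [mul_pow, pow_succ r d]
      field_simp
    rw [e2]
    gcongr
    exact lintegral_Phi_pow (by positivity) hFm le_rfl
  -- conclusion
  have h4 : A ^ 2 ≤ (I.card : ℝ≥0∞) * ∑ i ∈ I, a i ^ 2 := by
    rw [hAa]
    have := sum_pow_le I a (n := 2) (by norm_num)
    simpa using this
  have h5 : A ^ 2 ≤ (cU d * (((J:ℝ≥0∞) + 1) ^ 2 * (N + 1)) * ENNReal.ofReal (r ^ (2 * d) / σ ^ d)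
      * I.card) * A := by
    have h6 : ∑ i ∈ I, a i ^ 2 ≤ (cChart d * (((J:ℝ≥0∞) + 1) ^ 2 * (N + 1)) *
        (ENNReal.ofReal (r ^ (2 * d) * (4 ^ (d + 1) / 2) ^ 2) * (vB (d + 1) 1) ^ 2 * A)) * β⁻¹ := by
      rw [← div_eq_mul_inv, ENNReal.le_div_iff_mul_le (Or.inl hβ0) (Or.inl hβt)]
      refine h2.trans (hMint.trans ?_)
      gcongr
    refine h4.trans ?_
    calc (I.card : ℝ≥0∞) * ∑ i ∈ I, a i ^ 2
        ≤ I.card * ((cChart d * (((J:ℝ≥0∞) + 1) ^ 2 * (N + 1)) *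
        (ENNReal.ofReal (r ^ (2 * d) * (4 ^ (d + 1) / 2) ^ 2) * (vB (d + 1) 1) ^ 2 * A)) * β⁻¹) := by
          gcongr
      _ = _ := by
          have e3 : β⁻¹ = ENNReal.ofReal (2 ^ d / σ ^ d) * (vB d 1)⁻¹ := by
            rw [hβ, ENNReal.mul_inv (Or.inl (by simp; positivity)) (Or.inl ENNReal.ofReal_ne_top),
              ← ENNReal.ofReal_inv_of_pos (by positivity)]
            congr 2
            rw [div_pow, inv_div]
          rw [e3, cU]
          have e4 : ENNReal.ofReal (r ^ (2 * d) * (4 ^ (d + 1) / 2) ^ 2) *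
              ENNReal.ofReal (2 ^ d / σ ^ d) = ENNReal.ofReal (2 ^ d * (4 ^ (d + 1) / 2) ^ 2) *
              ENNReal.ofReal (r ^ (2 * d) / σ ^ d) := by
            rw [← ENNReal.ofReal_mul (by positivity), ← ENNReal.ofReal_mul (by positivity)]
            congr 1
            ring
          calc _ = I.card * (cChart d * (((J:ℝ≥0∞) + 1) ^ 2 * (N + 1)) *
                ((ENNReal.ofReal (r ^ (2 * d) * (4 ^ (d + 1) / 2) ^ 2) *
                ENNReal.ofReal (2 ^ d / σ ^ d)) * ((vB (d + 1) 1) ^ 2 * A)) * (vB d 1)⁻¹) := by ring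
            _ = _ := by rw [e4]; ring
  exact le_of_sq_le_mul hAtop h5

end Run7.h534.Cv
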